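import Mathlib

/-! # Points which avoid countably many hypersurfaces -/

set_option autoImplicit false

namespace Pool.Agent.Helper2K9.Cub

open MvPolynomial

/-- countably many nonzero polynomials over the complex numbers have a common point where none of
them vanishes -/
theorem exists_avoid {ι : Type} [Countable ι] (n : ℕ) : ∀ (P : ι → MvPolynomial (Fin n) ℂ),
    (∀ i, P i ≠ 0) → ∃ t : Fin n → ℂ, ∀ i, eval t (P i) ≠ 0 := by
  induction n with
  | zero =>
    intro P hP
    refine ⟨Fin.elim0, fun i h => hP i ?_⟩
    apply MvPolynomial.funext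
    intro x
    rw [map_zero, ← h]
    congr 2
    exact Subsingleton.elim _ _
  | succ n ih =>
    intro P hP
    have hP' : ∀ i, finSuccEquiv ℂ n (P i) ≠ 0 := fun i h =>
      hP i ((finSuccEquiv ℂ n).injective (h.trans (map_zero _).symm))
    obtain ⟨t, ht⟩ := ih (fun i => (finSuccEquiv ℂ n (P i)).leadingCoeff)
      (fun i => Polynomial.leadingCoeff_ne_zero.2 (hP' i))
    -- the polynomials in one variable
    let q : ι → Polynomial ℂ := fun i => (finSuccEquiv ℂ n (P i)).map (eval t)
    have hq : ∀ i, q i ≠ 0 := by
      intro i h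
      apply ht i
      have h1 := congrArg (fun p : Polynomial ℂ => p.coeff (finSuccEquiv ℂ n (P i)).natDegree) h
      simp only [q, Polynomial.coeff_map, Polynomial.coeff_zero] at h1
      exact h1
    have hc : (⋃ i, {z : ℂ | (q i).IsRoot z}).Countable :=
      Set.countable_iUnion fun i => (Polynomial.finite_setOfPred_isRoot (hq i)).countable
    obtain ⟨z, hz⟩ := (Set.Countable.dense_compl ℂ hc).nonempty
    refine ⟨Fin.cons z t, fun i h => hz ?_⟩
    rw [Set.mem_iUnion]
    refine ⟨i, ?_⟩
    change (q i).eval z = 0
    rw [← h, eval_eq_eval_mv_eval']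

end Pool.Agent.Helper2K9.Cub
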