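import Mathlib
import Pool.Agent.R845.E3.All
import Pool.Agent.R845.E3.FourAll
import Pool.Agent.R845.E3.Conics

/-! # Smooth cubics: conics which meet a linear subspace give a rational section -/

set_option autoImplicit false

namespace Pool.Agent.Helper2K9.Cub

open MvPolynomial Pool.Agent.TH314.PD IntermediateField Module Pool.Agent.Y201.C3
open Pool.Agent.R845.E3 Pool.Agent.R845.T2

noncomputable section

/-- coordinates adapted to a linear subspace -/
theorem adapt1' {N P : ℕ} {F : MvPolynomial (Fin N) ℂ} (hF0 : F ≠ 0)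
    (A : Fin N → Fin P → ℂ) (hA0 : A ≠ 0)
    (hA : ∀ a : Fin P → ℂ, eval (fun i => ∑ l, a l * A i l) F = 0) :
    ∃ (k m : ℕ) (σ : Fin (k + 1 + (m + 1)) ≃ Fin N) (U : Fin (k + 1) → Fin (m + 1) → ℂ),
      LinearIndependent ℂ (fun i : Fin (k + 1) => A (σ (Fin.castAdd (m + 1) i))) ∧
      VanW (shear U (rename σ.symm F)) ∧
      (∀ j l, A (σ (Fin.natAdd (k + 1) j)) l =
        ∑ i, U i j * A (σ (Fin.castAdd (m + 1) i)) l) ∧
      ∀ (M : Type) [Field M] [Algebra ℂ M] (w : Fin P → M) (j : Fin (m + 1)),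
        tp U (fun i => ∑ l, w l * algebraMap ℂ M (A (σ i) l)) (Fin.natAdd (k + 1) j) = 0 := by
  classical
  obtain ⟨k, m, σ, U, hli, hU⟩ := rows' A hA0 (by
    intro h
    apply hF0
    apply MvPolynomial.funext
    intro u
    obtain ⟨a, ha⟩ := h u
    rw [map_zero, ← hA a, show (fun i => ∑ l, a l * A i l) = u from funext ha])
  set F1 : MvPolynomial (Fin (k + 1 + (m + 1))) ℂ := rename σ.symm F with hF1
  set F2 := shear U F1 with hF2
  -- `F2` vanishes on `W`
  have hsurj : ∀ u : Fin (k + 1) → ℂ, ∃ a : Fin P → ℂ,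
      ∀ i, ∑ l, a l * A (σ (Fin.castAdd (m + 1) i)) l = u i := by
    intro u
    have h1 : Function.Surjective (Matrix.mulVecLin (Matrix.of fun i : Fin (k + 1) =>
        A (σ (Fin.castAdd (m + 1) i)))) := by
      rw [← LinearMap.range_eq_top]
      have h2 := LinearIndependent.rank_matrix (M := Matrix.of fun i : Fin (k + 1) =>
        A (σ (Fin.castAdd (m + 1) i))) hli
      apply Submodule.eq_top_of_finrank_eq
      rw [Module.finrank_fin_fun]
      rw [Fintype.card_fin] at h2
      exact h2
    obtain ⟨a, ha⟩ := h1 u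
    refine ⟨a, fun i => ?_⟩
    rw [← ha]
    simp only [Matrix.mulVecLin_apply, Matrix.mulVec, dotProduct, Matrix.of_apply]
    exact Finset.sum_congr rfl fun l _ => mul_comm _ _
  refine ⟨k, m, σ, U, hli, ?_, hU, ?_⟩
  · unfold VanW
    apply MvPolynomial.funext
    intro u
    rw [map_zero]
    obtain ⟨a, ha⟩ := hsurj u
    have h1 : eval u (aeval (Fin.append (X : Fin (k + 1) → MvPolynomial (Fin (k + 1)) ℂ) 0) F2) =
        aeval (Fin.append u (0 : Fin (m + 1) → ℂ)) F2 := by
      have h2 := comp_aeval_apply (f := Fin.append (X : Fin (k + 1) →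
        MvPolynomial (Fin (k + 1)) ℂ) 0) (aeval u) F2
      rw [aeval_eq_eval] at h2
      rw [h2]
      congr 2
      funext i
      refine Fin.addCases (fun j => ?_) (fun j => ?_) i
      · rw [Fin.append_left, Fin.append_left, eval_X]
      · rw [Fin.append_right, Fin.append_right, Pi.zero_apply, Pi.zero_apply, map_zero]
    rw [h1, hF2, aeval_shear, hF1, aeval_rename]
    have h3 : ((Fin.append (fun i => Fin.append u (0 : Fin (m + 1) → ℂ) (Fin.castAdd (m + 1) i))
        (fun j => Fin.append u (0 : Fin (m + 1) → ℂ) (Fin.natAdd (k + 1) j) +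
          ∑ i, algebraMap ℂ ℂ (U i j) * Fin.append u (0 : Fin (m + 1) → ℂ)
            (Fin.castAdd (m + 1) i))) ∘ σ.symm) = fun i => ∑ l, a l * A i l := by
      funext i
      obtain ⟨i', rfl⟩ := σ.surjective i
      simp only [Function.comp_apply, Equiv.symm_apply_apply]
      refine Fin.addCases (fun j => ?_) (fun j => ?_) i'
      · rw [Fin.append_left, Fin.append_left, ha]
      · rw [Fin.append_right, Fin.append_right, Pi.zero_apply, zero_add]
        simp only [Fin.append_left, Algebra.algebraMap_self, RingHom.id_apply, hU]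
        simp only [Finset.mul_sum]
        rw [Finset.sum_comm]
        refine Finset.sum_congr rfl fun i _ => ?_
        rw [← ha, Finset.mul_sum]
        refine Finset.sum_congr rfl fun l _ => ?_
        ring
    rw [h3, aeval_eq_eval]
    exact hA a
  · intro M _ _ w j
    unfold tp
    rw [Fin.append_right, sub_eq_zero]
    simp only [hU, map_sum, map_mul, Finset.mul_sum]
    rw [Finset.sum_comm]
    refine Finset.sum_congr rfl fun i _ => Finset.sum_congr rfl fun l _ => ?_
    ring

/-- conics which meet a linear subspace `W` of a smooth cubic hypersurface: if the family has odd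
degree, then the generic fibre of the projection from `W` has a rational point -/
theorem conics_iso {N P : ℕ} {F : MvPolynomial (Fin N) ℂ}
    (hF : F.IsHomogeneous 3) (hsm : Sm F) (hF0 : F ≠ 0) (A : Fin N → Fin P → ℂ)
    (hA : ∀ a : Fin P → ℂ, eval (fun i => ∑ l, a l * A i l) F = 0)
    {M : Type} [Field M] [Algebra ℂ M] (L : IntermediateField ℂ M) (t : M)
    (ht : Transcendental L t) (w : Fin P → M)
    (hw : ∀ l, w l ∈ L) (β γ : Fin N → M) (hβ : ∀ i, β i ∈ L) (hγ : ∀ i, γ i ∈ L)
    (hG : Gp F (fun i => t ^ 2 * (∑ l, w l * algebraMap ℂ M (A i l)) + t * β i + γ i))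
    (hodd : Odd (finrank (ratioField fun i =>
      t ^ 2 * (∑ l, w l * algebraMap ℂ M (A i l)) + t * β i + γ i) M)) :
    ∃ (k m : ℕ) (σ : Fin (k + 1 + (m + 1)) ≃ Fin N) (U : Fin (k + 1) → Fin (m + 1) → ℂ),
      LinearIndependent ℂ (fun i : Fin (k + 1) => A (σ (Fin.castAdd (m + 1) i))) ∧
      VanW (shear U (rename σ.symm F)) ∧
      (∀ j l, A (σ (Fin.natAdd (k + 1) j)) l =
        ∑ i, U i j * A (σ (Fin.castAdd (m + 1) i)) l) ∧
      Iso (shear U (rename σ.symm F)) := by
  classical
  by_cases hA0 : A = 0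
  · exfalso
    have h1 : (fun i => t ^ 2 * (∑ l, w l * algebraMap ℂ M (A i l)) + t * β i + γ i) =
        fun i => t * β i + γ i := by
      funext i
      rw [hA0]
      simp
    rw [h1] at hG hodd
    have hirr : Irreducible F :=
      Pool.Agent.Y201.LI.irreducible_of_generic hF hF0 _ hG.1 hG.2
    have h2 := Pool.Agent.Y201.LI.hT1 N 3 F hF (by norm_num) hirr hsm M L t ht β γ
      hβ hγ hG.1 hG.2
    exact (Nat.not_even_iff_odd.2 hodd) (even_iff_two_dvd.2 h2)
  obtain ⟨k, m, σ, U, hli, hW, hU, htp⟩ := adapt1' hF0 A hA0 hA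
  refine ⟨k, m, σ, U, hli, hW, hU, ?_⟩
  have hF1h : (rename σ.symm F).IsHomogeneous 3 := hF.rename_isHomogeneous
  set v : Fin N → M := fun i => ∑ l, w l * algebraMap ℂ M (A i l) with hv
  have hvL : ∀ i, v i ∈ L := fun i => sum_mem fun l _ => mul_mem (hw l) (L.algebraMap_mem _)
  set x : Fin N → M := fun i => t ^ 2 * v i + t * β i + γ i with hxd
  have hxG : Gp F x := hG
  set x1 : Fin (k + 1 + (m + 1)) → M := fun i => x (σ i) with hx1
  have hx1G : Gp (rename σ.symm F) x1 := by
    have h1 := gp_rename σ.symm hxG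
    simpa only [Equiv.symm_symm] using h1
  have hx1r : ratioField x1 = ratioField x := by
    have h1 := ratioField_perm σ.symm x
    simpa only [Equiv.symm_symm] using h1
  have hx2G : Gp (shear U (rename σ.symm F)) (tp U x1) := gp_tp U hx1G
  have hx1n : ∀ i, x1 i ≠ 0 := coord_ne_zero hF1h (by norm_num) x1 hx1G.2
  have hx2n : ∀ i, tp U x1 i ≠ 0 := coord_ne_zero (shear_hom hF1h U) (by norm_num) _ hx2G.2
  have hx2r : ratioField (tp U x1) = ratioField x1 :=
    ratioField_tp U x1 ⟨_, hx1n (Fin.castAdd (m + 1) 0)⟩ ⟨_, hx2n (Fin.castAdd (m + 1) 0)⟩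
  set α : Fin (k + 1) → M := fun i => v (σ (Fin.castAdd (m + 1) i)) with hα
  have htv : tp U (fun i => v (σ i)) = Fin.append α (0 : Fin (m + 1) → M) := by
    funext i
    refine Fin.addCases (fun j => ?_) (fun j => ?_) i
    · unfold tp
      rw [Fin.append_left, Fin.append_left]
    · rw [Fin.append_right, Pi.zero_apply]
      exact htp M w j
  have htx : tp U x1 = fun i => t ^ 2 * Fin.append α (0 : Fin (m + 1) → M) i +
      t * tp U (fun i => β (σ i)) i + tp U (fun i => γ (σ i)) i := by
    rw [← htv, ← tp_lin]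
  rw [htx] at hx2G hx2r
  exact cc spr desc k m _ (shear_hom hF1h U) (sm_shear (sm_rename σ.symm hsm) U) hW M L t ht α
    (tp U fun i => β (σ i)) (tp U fun i => γ (σ i)) (fun i => hvL _)
    (tp_mem U L _ fun i => hβ _) (tp_mem U L _ fun i => hγ _) hx2G
    (by rw [hx2r, hx1r]; exact hodd)

/-- rationality -/
theorem rational {N n k m : ℕ} (hn : 1 ≤ n) (hN : N = n + 2) {F : MvPolynomial (Fin N) ℂ}
    (hF : F.IsHomogeneous 3) (hsm : Sm F)
    (σ : Fin (k + 1 + (m + 1)) ≃ Fin N) (U : Fin (k + 1) → Fin (m + 1) → ℂ)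
    (hW : VanW (shear U (rename σ.symm F))) (hiso : Iso (shear U (rename σ.symm F))) :
    ∃ G : Fin N → MvPolynomial (Fin n) ℂ,
      Gp F (fun i => algebraMap (MvPolynomial (Fin n) ℂ) (Rn n) (G i)) ∧
      (ratioField fun i => algebraMap (MvPolynomial (Fin n) ℂ) (Rn n) (G i)) = ⊤ := by
  have hkm : k + m = n := by
    have h1 := Fintype.card_congr σ
    rw [Fintype.card_fin, Fintype.card_fin] at h1
    omega
  have hF1h : (rename σ.symm F).IsHomogeneous 3 := hF.rename_isHomogeneous
  exact back hkm hF σ U (rat evn k m (by omega) _ (shear_hom hF1h U)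
    (sm_shear (sm_rename σ.symm hsm) U) hW hiso)

/-- smooth cubic fourfolds: the subspace lies in a plane -/
theorem plane4 {F : MvPolynomial (Fin 6) ℂ} (hF : F.IsHomogeneous 3) (hsm : Sm F) {r : ℕ}
    (A : Fin r → Fin 6 → ℂ) {k m : ℕ}
    (σ : Fin (k + 1 + (m + 1)) ≃ Fin 6) (U : Fin (k + 1) → Fin (m + 1) → ℂ)
    (hU : ∀ j l, A l (σ (Fin.natAdd (k + 1) j)) =
        ∑ i, U i j * A l (σ (Fin.castAdd (m + 1) i)))
    (hW : VanW (shear U (rename σ.symm F))) (hiso : Iso (shear U (rename σ.symm F))) :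
    ∃ v : Fin 3 → Fin 6 → ℂ, LinearIndependent ℂ v ∧
      (∀ l, A l ∈ Submodule.span ℂ (Set.range v)) ∧
      ∀ b : Fin 3 → ℂ, eval (fun i => ∑ l, b l * v l i) F = 0 := by
  classical
  have hkm : k + m = 4 := by
    have h1 := Fintype.card_congr σ
    rw [Fintype.card_fin, Fintype.card_fin] at h1
    omega
  have hF1h : (rename σ.symm F).IsHomogeneous 3 := hF.rename_isHomogeneous
  have hF2h := shear_hom hF1h U
  have hF2s := sm_shear (sm_rename σ.symm hsm) U
  have hle := le_of_smooth hF2h hF2s hW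
  have hk : k = 0 ∨ k = 1 ∨ k = 2 := by omega
  obtain rfl | rfl | rfl := hk
  · exact absurd hiso (no_iso0 (by omega) hF2h hF2s hW)
  · obtain rfl : m = 3 := by omega
    by_cases hNP : ∀ y : Fin (3 + 1) → ℂ, y ≠ 0 → ∃ a b c : ℂ,
      eval (Fin.append ![a, b] (fun j => c * y j)) (shear U (rename σ.symm F)) ≠ 0
    · exact absurd hiso (no_iso1 hF2h hF2s hW hNP)
    · push Not at hNP
      obtain ⟨y, hy, hyF⟩ := hNP
      have hsum : ∀ b : Fin 3 → ℂ, ∑ a, b a • (Fin.append ((![![1, 0], ![0, 1], ![0, 0]] :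
          Fin 3 → Fin (1 + 1) → ℂ) a) ((![0, 0, y] : Fin 3 → Fin (3 + 1) → ℂ) a)) =
          Fin.append ![b 0, b 1] (fun j => b 2 * y j) := by
        intro b
        rw [Fin.sum_univ_three]
        funext i
        refine Fin.addCases (fun j => ?_) (fun j => ?_) i
        · simp only [Pi.add_apply, Pi.smul_apply, Fin.append_left, smul_eq_mul]
          fin_cases j <;> simp
        · simp only [Pi.add_apply, Pi.smul_apply, Fin.append_right, smul_eq_mul]
          simp
      refine plane_of σ U F A (fun j l => hU j l) (fun a => Fin.append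
        ((![![1, 0], ![0, 1], ![0, 0]] : Fin 3 → Fin (1 + 1) → ℂ) a)
        ((![0, 0, y] : Fin 3 → Fin (3 + 1) → ℂ) a)) ?_ ?_ ?_
      · rw [Fintype.linearIndependent_iff]
        intro g hg
        rw [hsum] at hg
        have h0 : g 0 = 0 := by
          have h1 := congrFun hg (Fin.castAdd (3 + 1) 0)
          rwa [Fin.append_left] at h1
        have h1 : g 1 = 0 := by
          have h1 := congrFun hg (Fin.castAdd (3 + 1) 1)
          rwa [Fin.append_left] at h1
        have h2 : g 2 = 0 := by
          by_contra hne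
          apply hy
          funext j
          have h1 := congrFun hg (Fin.natAdd (1 + 1) j)
          rw [Fin.append_right, Pi.zero_apply] at h1
          exact (mul_eq_zero.1 h1).resolve_left hne
        intro i
        fin_cases i
        · exact h0
        · exact h1
        · exact h2
      · intro b
        rw [hsum]
        exact hyF _ _ _
      · intro u
        have h1 : Fin.append u (0 : Fin (3 + 1) → ℂ) = ∑ a, (![u 0, u 1, 0] : Fin 3 → ℂ) a •
            (Fin.append ((![![1, 0], ![0, 1], ![0, 0]] :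
            Fin 3 → Fin (1 + 1) → ℂ) a) ((![0, 0, y] : Fin 3 → Fin (3 + 1) → ℂ) a)) := by
          rw [hsum]
          funext i
          refine Fin.addCases (fun j => ?_) (fun j => ?_) i
          · rw [Fin.append_left, Fin.append_left]
            fin_cases j <;> rfl
          · rw [Fin.append_right, Fin.append_right]
            simp
        rw [h1]
        exact Submodule.sum_mem _ fun a _ =>
          Submodule.smul_mem _ _ (Submodule.subset_span ⟨a, rfl⟩)
  · obtain rfl : m = 2 := by omega
    refine plane_of σ U F A (fun j l => hU j l)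
      (fun a => Pi.single (Fin.castAdd 3 a) 1) ?_ ?_ ?_
    · have h1 := (Pi.basisFun ℂ (Fin (2 + 1 + (2 + 1)))).linearIndependent
      have h2 := h1.comp (Fin.castAdd 3) (Fin.castAdd_injective _ _)
      have h3 : (⇑(Pi.basisFun ℂ (Fin (2 + 1 + (2 + 1)))) ∘ Fin.castAdd 3) =
          fun a : Fin 3 => (Pi.single (Fin.castAdd 3 a) 1 : Fin (2 + 1 + (2 + 1)) → ℂ) := by
        funext a
        rw [Function.comp_apply, Pi.basisFun_apply]
      rw [h3] at h2
      exact h2
    · intro b
      rw [← append_single (k := 2) (m := 2) b]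
      exact eval_van hW b
    · intro u
      rw [append_single (k := 2) (m := 2) u]
      exact Submodule.sum_mem _ fun a _ => Submodule.smul_mem _ _ (Submodule.subset_span ⟨a, rfl⟩)

end

end Pool.Agent.Helper2K9.Cub
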