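import Mathlib
import Pool.Agent.Helper2K9.Cub.Iso

/-! # Smooth cubics: maps of odd degree given by cubic forms -/

set_option autoImplicit false

namespace Pool.Agent.Helper2K9.Cub

open MvPolynomial Pool.Agent.TH314.PD IntermediateField Module Pool.Agent.Y201.C3
open Pool.Agent.R845.E3 Pool.Agent.R845.T2

noncomputable section

/-- the conics given by the lines through a base point `b`; the linear subspace is the image of the
Jacobian matrix at `b` -/
theorem con' {n : ℕ} (hn : 1 ≤ n) (F : MvPolynomial (Fin (n + 2)) ℂ) (hF : F.IsHomogeneous 3)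
    (H : Fin (n + 2) → MvPolynomial (Fin (n + 1)) ℂ) (hH : ∀ i, (H i).IsHomogeneous 3)
    (hFH : aeval H F = 0) (b : Fin (n + 1) → ℂ) (hb : b ≠ 0) (hHb : ∀ i, eval b (H i) = 0) :
    (∀ a : Fin (n + 1) → ℂ, eval (fun i => ∑ l, a l * eval b (pderiv l (H i))) F = 0) ∧
      ∃ (L : IntermediateField ℂ (Rn n)) (t s : Rn n), Transcendental L t ∧ s ≠ 0 ∧
        ∃ (w : Fin (n + 1) → Rn n) (β γ : Fin (n + 2) → Rn n),
          (∀ i, w i ∈ L) ∧ (∀ i, β i ∈ L) ∧ (∀ i, γ i ∈ L) ∧
          ∀ i, s * dh H i = t ^ 2 * (∑ l, w l * algebraMap ℂ (Rn n) (eval b (pderiv l (H i)))) +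
            t * β i + γ i := by
  classical
  choose T hT hTH using fun i => exists_tri (H i) (hH i)
  obtain rfl : H = fun i => Bg (T i) X X X := funext hTH
  obtain ⟨j0, hj0⟩ := Function.ne_iff.1 hb
  rw [Pi.zero_apply] at hj0
  have hnt : Nontrivial (Fin (n + 1)) := Fin.nontrivial_iff_two_le.2 (by omega)
  obtain ⟨j1, hj1⟩ := exists_ne j0
  have hbbb : ∀ i, Bg (T i) b b b = 0 := by
    intro i
    have h1 := hHb i
    rw [← coe_aeval_eq_eval, RingHom.coe_coe, aeval_frmG] at h1
    exact h1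
  refine ⟨?_, ?_⟩
  · intro a
    rw [← con_one F hF T hT hFH b hbbb a]
    congr 2
    funext i
    exact con_A (hT i) b a
  · set z : Fin (n + 1) → Rn n := fun l => algebraMap (MvPolynomial (Fin n) ℂ) (Rn n)
      ((Fin.cons 1 X : Fin (n + 1) → MvPolynomial (Fin n) ℂ) l) with hz
    set b' : Fin (n + 1) → Rn n := fun l => algebraMap ℂ (Rn n) (b l) with hb'
    have hb'0 : b' j0 ≠ 0 := by
      rw [hb']
      simp only
      intro h
      exact hj0 ((algebraMap ℂ (Rn n)).injective (h.trans (map_zero _).symm))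
    set om : Rn n := z j1 - z j0 / b' j0 * b' j1 with hom
    have hom0 : om ≠ 0 := by
      intro h
      apply con_lin n j0 j1 hj1 (b j1 / b j0)
      apply IsFractionRing.injective (MvPolynomial (Fin n) ℂ) (Rn n)
      rw [map_zero, map_sub, map_mul, ← h, hom]
      have h1 : algebraMap (MvPolynomial (Fin n) ℂ) (Rn n) (C (b j1 / b j0)) =
          b' j1 / b' j0 := by
        rw [hb']
        simp only
        rw [← map_div₀, IsScalarTower.algebraMap_apply ℂ (MvPolynomial (Fin n) ℂ) (Rn n)]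
        rfl
      rw [h1]
      simp only [hz]
      ring
    set t : Rn n := z j0 / b' j0 / om with ht
    set w : Fin (n + 1) → Rn n := fun l => (z l - z j0 / b' j0 * b' l) / om with hw
    have hzw : ∀ l, z l = om * (t * b' l + w l) := by
      intro l
      rw [ht, hw]
      field_simp
      ring
    have hw0 : w j0 = 0 := by
      rw [hw]
      simp only
      rw [div_mul_cancel₀ _ hb'0, sub_self, zero_div]
    have hw1 : w j1 = 1 := by
      rw [hw]
      simp only
      exact div_self hom0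
    set S : Finset (Rn n) := ((Finset.univ.erase j0).erase j1).image w with hS
    have hSc : S.card < n := by
      have h1 : S.card ≤ ((Finset.univ.erase j0).erase j1).card := Finset.card_image_le
      rw [Finset.card_erase_of_mem (Finset.mem_erase.2 ⟨hj1, Finset.mem_univ _⟩),
        Finset.card_erase_of_mem (Finset.mem_univ _), Finset.card_univ, Fintype.card_fin] at h1
      omega
    set L := IntermediateField.adjoin ℂ (S : Set (Rn n)) with hL
    have hwL : ∀ l, w l ∈ L := by
      intro l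
      by_cases h0 : l = j0
      · rw [h0, hw0]; exact zero_mem _
      by_cases h1 : l = j1
      · rw [h1, hw1]; exact one_mem _
      · apply IntermediateField.subset_adjoin
        rw [hS, Finset.coe_image]
        exact ⟨l, by simp [h0, h1], rfl⟩
    have hbL : ∀ l, b' l ∈ L := fun l => L.algebraMap_mem _
    have htr : Transcendental L t := by
      apply con_transc n S hSc t om
      intro l
      exact ⟨b' l, w l, hbL l, hwL l, hzw l⟩
    refine ⟨L, t, (om ^ 3)⁻¹, htr, inv_ne_zero (pow_ne_zero _ hom0), w,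
      fun i => 3 * Bg (T i) b' w w, fun i => Bg (T i) w w w, hwL, ?_, ?_, ?_⟩
    · intro i
      exact mul_mem (by have h3 := L.algebraMap_mem (3 : ℂ); rwa [map_ofNat] at h3)
        (Pool.Agent.R845.E3.Bg_mem L _ _ _ _ hbL hwL hwL)
    · intro i
      exact Pool.Agent.R845.E3.Bg_mem L _ _ _ _ hwL hwL hwL
    · intro i
      have h1 : dh (fun i => (Bg (T i) X X X : MvPolynomial (Fin (n + 1)) ℂ)) i =
          aeval z (Bg (T i) X X X : MvPolynomial (Fin (n + 1)) ℂ) := by
        unfold dh
        exact (aeval_algebraMap_apply (Rn n) (Fin.cons 1 X : Fin (n + 1) → MvPolynomial (Fin n) ℂ)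
          (Bg (T i) X X X : MvPolynomial (Fin (n + 1)) ℂ)).symm
      have h2 : z = fun l => om * (t * b' l + w l) := funext hzw
      have h3 : Bg (T i) b' b' b' = 0 := by
        have h4 := map_Bg (Algebra.ofId ℂ (Rn n)) (T i) b b b
        rw [hbbb i, map_zero] at h4
        exact h4.symm
      rw [h1, h2, aeval_smul_form (hH i), con_taylor (hT i), h3, con_A (hT i)]
      rw [inv_mul_cancel_left₀ (pow_ne_zero _ hom0)]
      ring

/-- base points of a dominant map of odd degree given by cubic forms: the projection from the image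
of the Jacobian matrix at a base point has a rational section -/
theorem base_iso {n : ℕ} (hn : 1 ≤ n) {F : MvPolynomial (Fin (n + 2)) ℂ}
    (hF : F.IsHomogeneous 3) (hsm : Sm F)
    (H : Fin (n + 2) → MvPolynomial (Fin (n + 1)) ℂ) (hH : ∀ i, (H i).IsHomogeneous 3)
    (hHF : aeval H F = 0) (hgp : Gp F (dh H)) (hodd : Odd (finrank (ratioField (dh H)) (Rn n)))
    (b : Fin (n + 1) → ℂ) (hb : b ≠ 0) (hHb : ∀ i, eval b (H i) = 0) :
    (∀ a : Fin (n + 1) → ℂ, eval (fun i => ∑ l, a l * eval b (pderiv l (H i))) F = 0) ∧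
    ∃ (k m : ℕ) (σ : Fin (k + 1 + (m + 1)) ≃ Fin (n + 2)) (U : Fin (k + 1) → Fin (m + 1) → ℂ),
      LinearIndependent ℂ (fun (i : Fin (k + 1)) (l : Fin (n + 1)) =>
        eval b (pderiv l (H (σ (Fin.castAdd (m + 1) i))))) ∧
      VanW (shear U (rename σ.symm F)) ∧
      (∀ j l, eval b (pderiv l (H (σ (Fin.natAdd (k + 1) j)))) =
        ∑ i, U i j * eval b (pderiv l (H (σ (Fin.castAdd (m + 1) i))))) ∧
      Iso (shear U (rename σ.symm F)) := by
  classical
  have hF0 : F ≠ 0 := ne_zero_of_smooth (m := n + 1) hsm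
  obtain ⟨hA, L, t, s, ht, hs, w, β, γ, hw, hβ, hγ, hx⟩ := con' hn F hF H hH hHF b hb hHb
  refine ⟨hA, ?_⟩
  have hxs : (fun i => t ^ 2 * (∑ l, w l * algebraMap ℂ (Rn n) (eval b (pderiv l (H i)))) +
      t * β i + γ i) = fun i => s * dh H i := by
    funext i
    rw [hx i]
  have hxG : Gp F (fun i => t ^ 2 *
      (∑ l, w l * algebraMap ℂ (Rn n) (eval b (pderiv l (H i)))) + t * β i + γ i) := by
    rw [hxs]
    refine ⟨by rw [aeval_smul_form hF, hgp.1, mul_zero], fun e P hP h0 => ?_⟩
    rw [aeval_smul_form hP] at h0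
    exact hgp.2 e P hP ((mul_eq_zero.1 h0).resolve_left (pow_ne_zero _ hs))
  have hxr : (ratioField fun i => t ^ 2 *
      (∑ l, w l * algebraMap ℂ (Rn n) (eval b (pderiv l (H i)))) + t * β i + γ i) =
      ratioField (dh H) := by
    rw [hxs]
    have h1 : (fun i => (s * dh H i) / s) = dh H := by
      funext i
      rw [mul_div_cancel_left₀ _ hs]
    conv_rhs => rw [← h1]
    rw [Pool.Agent.Y929.LI.ratioField_div (fun i => s * dh H i) hs]
  exact conics_iso hF hsm hF0 (fun i l => eval b (pderiv l (H i))) hA L t ht w hw β γ hβ hγ hxG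
    (by rw [hxr]; exact hodd)

/-- homogenization of a dominant map given by cubic polynomials -/
theorem homog {n : ℕ} {F : MvPolynomial (Fin (n + 2)) ℂ} (hF : F.IsHomogeneous 3)
    (G : Fin (n + 2) → MvPolynomial (Fin n) ℂ) (hG : ∀ i, (G i).totalDegree ≤ 3)
    (hFG : aeval G F = 0) :
    ∃ H : Fin (n + 2) → MvPolynomial (Fin (n + 1)) ℂ, (∀ i, (H i).IsHomogeneous 3) ∧
      (∀ i, aeval (Fin.cons 1 X : Fin (n + 1) → MvPolynomial (Fin n) ℂ) (H i) = G i) ∧
      dh H = (fun i => algebraMap (MvPolynomial (Fin n) ℂ) (Rn n) (G i)) ∧ aeval H F = 0 := by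
  choose H hH hHG using fun i => hom3 (G i) (hG i)
  refine ⟨H, hH, hHG, ?_, ?_⟩
  · funext i
    unfold dh
    rw [hHG]
  · have h1 : (aeval H F).IsHomogeneous (3 * 3) := hF.aeval H hH
    refine hom_zero h1 ?_
    rw [comp_aeval_apply]
    rw [show (fun i => aeval (Fin.cons 1 X : Fin (n + 1) → MvPolynomial (Fin n) ℂ) (H i)) = G
      from funext hHG]
    exact hFG

/-- a dominant map given by cubic forms has a base point -/
theorem exists_base {n : ℕ} (hn : 3 ≤ n)
    {F : MvPolynomial (Fin (n + 2)) ℂ} (hF : F.IsHomogeneous 3) (hsm : Sm F)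
    (G : Fin (n + 2) → MvPolynomial (Fin n) ℂ) (hG : ∀ i, (G i).totalDegree ≤ 3)
    (hFG : aeval G F = 0)
    (hdom : ∀ e (P : MvPolynomial (Fin (n + 2)) ℂ), P.IsHomogeneous e → aeval G P = 0 → F ∣ P)
    (H : Fin (n + 2) → MvPolynomial (Fin (n + 1)) ℂ) (hH : ∀ i, (H i).IsHomogeneous 3)
    (hdh : dh H = fun i => algebraMap (MvPolynomial (Fin n) ℂ) (Rn n) (G i))
    (hHF : aeval H F = 0) :
    ∃ b : Fin (n + 1) → ℂ, b ≠ 0 ∧ ∀ i, eval b (H i) = 0 := by
  have hF0 : F ≠ 0 := ne_zero_of_smooth (m := n + 1) hsm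
  obtain ⟨hfin, hb⟩ := bound (k := 3) (by norm_num) F hF hsm G hG hFG hdom
  have hb3 : 3 * finrank (ratioField fun i => algebraMap (MvPolynomial (Fin n) ℂ) (Rn n) (G i))
      (Rn n) ≤ n + 1 := by
    have h1 : finrank (ratioField fun i => algebraMap (MvPolynomial (Fin n) ℂ) (Rn n) (G i))
      (Rn n) * (3 * 2 ^ n) ≤ (n + 1) * 2 ^ n := hb
    rw [← mul_assoc] at h1
    have h2 := Nat.le_of_mul_le_mul_right h1 (by positivity)
    omega
  by_contra hcon
  push Not at hcon
  have h1 := bas n F hF hF0 H hH (fun b hb => by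
    by_contra hb0
    obtain ⟨i, hi⟩ := hcon b hb0
    exact hi (hb i)) hHF (by rw [hdh]; exact hfin)
  rw [hdh] at h1
  have h2 := pow_gt n (by omega)
  omega

end

end Pool.Agent.Helper2K9.Cub
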