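import Mathlib
import Pool.Agent.Helper2K9.Cub.Maps
import Pool.Agent.Y246.C3.Cb
import Pool.Agent.R845.T2.Fin

/-! # Limits at base points, and the inverse of a birational parametrization -/

set_option autoImplicit false

namespace Pool.Agent.Helper2K9.Cub

open MvPolynomial Pool.Agent.TH314.PD IntermediateField Module Pool.Agent.Y201.C3
open Pool.Agent.R845.E3 Pool.Agent.R845.T2

noncomputable section

/-- division of polynomials by a common factor -/
theorem primitive {n : ℕ} (j0 : Fin n) (N : ℕ) : ∀ (h : Fin n → Polynomial ℂ), h j0 ≠ 0 →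
    (h j0).natDegree ≤ N → ∃ (g : Polynomial ℂ) (h' : Fin n → Polynomial ℂ), g ≠ 0 ∧
      (∀ j, h j = g * h' j) ∧ ∀ s : ℂ, ∃ j, (h' j).eval s ≠ 0 := by
  induction N with
  | zero =>
    intro h h0 hN
    refine ⟨1, h, one_ne_zero, fun j => (one_mul _).symm, fun s => ⟨j0, ?_⟩⟩
    rw [Polynomial.eq_C_of_natDegree_le_zero hN, Polynomial.eval_C]
    intro h1
    apply h0
    rw [Polynomial.eq_C_of_natDegree_le_zero hN, h1, Polynomial.C_0]
  | succ N ih =>
    intro h h0 hN
    by_cases hr : ∃ s : ℂ, ∀ j, (h j).eval s = 0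
    · obtain ⟨s, hs⟩ := hr
      have h1 : ∀ j, ∃ k, h j = (Polynomial.X - Polynomial.C s) * k := fun j =>
        Polynomial.dvd_iff_isRoot.2 (hs j)
      choose k hk using h1
      have hk0 : k j0 ≠ 0 := by
        intro h2
        apply h0
        rw [hk, h2, mul_zero]
      have hkd : (k j0).natDegree ≤ N := by
        have h2 := Polynomial.natDegree_mul (Polynomial.X_sub_C_ne_zero s) hk0
        rw [← hk, Polynomial.natDegree_X_sub_C] at h2
        omega
      obtain ⟨g, h', hg, hgh, hh⟩ := ih k hk0 hkd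
      refine ⟨(Polynomial.X - Polynomial.C s) * g, h', mul_ne_zero (Polynomial.X_sub_C_ne_zero s) hg,
        fun j => ?_, hh⟩
      rw [hk, hgh, mul_assoc]
    · push Not at hr
      exact ⟨1, h, one_ne_zero, fun j => (one_mul _).symm, hr⟩

/-- the limit of the images of the points near a base point -/
theorem limit {n : ℕ} {F : MvPolynomial (Fin (n + 2)) ℂ} (hF : F.IsHomogeneous 3)
    (H : Fin (n + 2) → MvPolynomial (Fin (n + 1)) ℂ) (hH : ∀ i, (H i).IsHomogeneous 3)
    (hFH : aeval H F = 0) (h : Fin (n + 1) → Polynomial ℂ) (c : Polynomial ℂ) (hc : c ≠ 0)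
    (l : Fin (n + 2) → Polynomial ℂ) (hl : ∀ i, aeval h (H i) = c * l i) (s0 : ℂ)
    (hs0 : c.eval s0 = 0) (w : Fin (n + 1) → ℂ) :
    eval (fun i => (l i).eval s0 +
      ∑ j, w j * eval (fun j => (h j).eval s0) (pderiv j (H i))) F = 0 := by
  classical
  choose T hT hTH using fun i => exists_tri (H i) (hH i)
  obtain rfl : H = fun i => Bg (T i) X X X := funext hTH
  set b : Fin (n + 1) → ℂ := fun j => (h j).eval s0 with hb
  let wp : Fin (n + 1) → Polynomial ℂ := fun j => Polynomial.C (w j)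
  have hl' : ∀ i, Bg (T i) h h h = c * l i := by
    intro i
    have h1 := hl i
    simp only at h1
    rwa [aeval_frmG] at h1
  have h1 : ∀ i, aeval (fun j => c * wp j + h j)
      (Bg (T i) X X X : MvPolynomial (Fin (n + 1)) ℂ) =
      c * (c ^ 2 * Bg (T i) wp wp wp + c * (3 * Bg (T i) wp wp h) + 3 * Bg (T i) wp h h +
        l i) := by
    intro i
    rw [con_taylor (hT i), hl']
    ring
  have h2 := congrArg (aeval (fun j => c * wp j + h j)) hFH
  rw [map_zero, comp_aeval_apply] at h2
  simp only [h1] at h2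
  rw [aeval_smul_form hF] at h2
  have h3 := (mul_eq_zero.1 h2).resolve_left (pow_ne_zero _ hc)
  have h4 := congrArg (Polynomial.aeval s0) h3
  rw [map_zero, comp_aeval_apply] at h4
  rw [← coe_aeval_eq_eval, RingHom.coe_coe, ← h4]
  congr 2
  funext i
  have h5 : Polynomial.aeval s0 (Bg (T i) wp h h) = Bg (T i) w b b := by
    rw [map_Bg]
    simp only [wp, Polynomial.aeval_C, hb, Polynomial.coe_aeval_eq_eval]
    rfl
  have h6 := con_A (R := ℂ) (hT i) b w
  simp only [Algebra.algebraMap_self, RingHom.id_apply] at h6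
  simp only [map_add, map_mul, map_pow, map_ofNat]
  rw [h5, h6, Polynomial.coe_aeval_eq_eval, hs0, Bg_swap23 (hT i) b b w, Bg_swap12 (hT i) b w b]
  ring

/-- the inverse of a birational parametrization -/
theorem inverse {n : ℕ} {F : MvPolynomial (Fin (n + 2)) ℂ} (hF : F.IsHomogeneous 3)
    (H : Fin (n + 2) → MvPolynomial (Fin (n + 1)) ℂ) (hH : ∀ i, (H i).IsHomogeneous 3)
    (hgp : Gp F (dh H)) (htop : ratioField (dh H) = ⊤) :
    ∃ (e : ℕ) (K : Fin (n + 1) → MvPolynomial (Fin (n + 2)) ℂ), (∀ j, (K j).IsHomogeneous e) ∧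
      (∀ i k, F ∣ X i * aeval K (H k) - X k * aeval K (H i)) ∧
      ∀ k, aeval (dh H) (aeval K (H k)) ≠ 0 := by
  classical
  set z : Fin (n + 1) → Rn n := fun l => algebraMap (MvPolynomial (Fin n) ℂ) (Rn n)
      ((Fin.cons 1 X : Fin (n + 1) → MvPolynomial (Fin n) ℂ) l) with hz
  choose D P Q hP hQ hQ0 hPQ using fun j => Pool.Agent.Y246.C3.exists_form (dh H) (z j)
    (by rw [htop]; exact IntermediateField.mem_top)
  set μ : Rn n := ∏ j, aeval (dh H) (Q j) with hμ
  have hμ0 : μ ≠ 0 := Finset.prod_ne_zero_iff.2 fun j _ => hQ0 j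
  let K : Fin (n + 1) → MvPolynomial (Fin (n + 2)) ℂ := fun j =>
    P j * ∏ i ∈ Finset.univ.erase j, Q i
  have hK : ∀ j, (K j).IsHomogeneous (∑ i, D i) := by
    intro j
    rw [← Finset.add_sum_erase _ _ (Finset.mem_univ j)]
    exact (hP j).mul (IsHomogeneous.prod _ _ _ fun i _ => hQ i)
  have hKe : ∀ j, aeval (dh H) (K j) = μ * z j := by
    intro j
    simp only [K]
    rw [map_mul, hPQ, map_prod, hμ, ← Finset.mul_prod_erase _ _ (Finset.mem_univ j)]
    ring
  have hKH : ∀ k, aeval (dh H) (aeval K (H k)) = μ ^ 3 * dh H k := by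
    intro k
    rw [comp_aeval_apply]
    simp only [hKe]
    rw [aeval_smul_form (hH k)]
    congr 1
    unfold dh
    exact (aeval_algebraMap_apply (Rn n) (Fin.cons 1 X : Fin (n + 1) → MvPolynomial (Fin n) ℂ)
      (H k))
  refine ⟨∑ i, D i, K, hK, fun i k => ?_, fun k => ?_⟩
  · apply hgp.2 (1 + 3 * ∑ i, D i)
    · refine ((isHomogeneous_X _ _).mul ?_).sub ((isHomogeneous_X _ _).mul ?_)
      · have h1 := (hH k).aeval K hK
        rwa [mul_comm] at h1
      · have h1 := (hH i).aeval K hK
        rwa [mul_comm] at h1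
    · rw [map_sub, map_mul, map_mul, aeval_X, aeval_X, hKH, hKH]
      ring
  · rw [hKH]
    exact mul_ne_zero (pow_ne_zero _ hμ0) (coord_ne_zero hF (by norm_num) _ hgp.2 k)

/-- the points of `F = 0` which are limits at a base point lie in planes of `F = 0` -/
theorem base_plane {F : MvPolynomial (Fin (4 + 2)) ℂ} (hF : F.IsHomogeneous 3) (hsm : Sm F)
    (H : Fin (4 + 2) → MvPolynomial (Fin (4 + 1)) ℂ) (hH : ∀ i, (H i).IsHomogeneous 3)
    (hHF : aeval H F = 0) (hgp : Gp F (dh H)) (hodd : Odd (finrank (ratioField (dh H)) (Rn 4)))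
    (b : Fin (4 + 1) → ℂ) (hb : b ≠ 0) (hHb : ∀ i, eval b (H i) = 0) (x : Fin 6 → ℂ)
    (hx : ∀ w : Fin (4 + 1) → ℂ, eval (fun i => x i + ∑ j, w j * eval b (pderiv j (H i))) F = 0) :
    ∃ v : Fin 3 → Fin 6 → ℂ, LinearIndependent ℂ v ∧ (∃ d : Fin 3 → ℂ, x = fun i => ∑ l, d l * v l i)
      ∧ ∀ c : Fin 3 → ℂ, eval (fun i => ∑ l, c l * v l i) F = 0 := by
  classical
  obtain ⟨hA, k, m, σ, U, hli, hW, hU, hiso⟩ := base_iso (n := 4) (by norm_num) hF hsm H hH hHF hgp
    hodd b hb hHb
  have hkm : k + m = 4 := by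
    have h1 := Fintype.card_congr σ
    rw [Fintype.card_fin, Fintype.card_fin] at h1
    omega
  have hF1h : (rename σ.symm F).IsHomogeneous 3 := hF.rename_isHomogeneous
  have hF2h := shear_hom hF1h U
  have hF2s := sm_shear (sm_rename σ.symm hsm) U
  have hk : 1 ≤ k := by
    by_contra hk
    obtain rfl : k = 0 := by omega
    exact no_iso0 (by omega) hF2h hF2s hW hiso
  by_cases hxJ : ∃ w : Fin (4 + 1) → ℂ, x = fun i => ∑ j, w j * eval b (pderiv j (H i))
  · obtain ⟨w, hw⟩ := hxJ
    obtain ⟨v, hv1, hv2, hv3⟩ := plane4 hF hsm (fun l i => eval b (pderiv l (H i))) σ U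
      (fun j l => hU j l) hW hiso
    refine ⟨v, hv1, ?_, hv3⟩
    have h1 : x ∈ Submodule.span ℂ (Set.range v) := by
      have h2 : x = ∑ j, w j • (fun i => eval b (pderiv j (H i)) : Fin 6 → ℂ) := by
        rw [hw]
        funext i
        rw [Finset.sum_apply]
        rfl
      rw [h2]
      exact Submodule.sum_mem _ fun j _ => Submodule.smul_mem _ _ (hv2 j)
    obtain ⟨d, hd⟩ := (Submodule.mem_span_range_iff_exists_fun ℂ).1 h1
    refine ⟨d, ?_⟩
    rw [← hd]
    funext i
    rw [Finset.sum_apply]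
    rfl
  · -- two independent vectors of the image
    have hsurj : ∀ u : Fin (k + 1) → ℂ, ∃ a : Fin (4 + 1) → ℂ,
        ∀ i, ∑ l, a l * eval b (pderiv l (H (σ (Fin.castAdd (m + 1) i)))) = u i := by
      intro u
      have h1 : Function.Surjective (Matrix.mulVecLin (Matrix.of fun (i : Fin (k + 1))
          (l : Fin (4 + 1)) => eval b (pderiv l (H (σ (Fin.castAdd (m + 1) i)))))) := by
        rw [← LinearMap.range_eq_top]
        have h2 := LinearIndependent.rank_matrix (M := Matrix.of fun (i : Fin (k + 1))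
          (l : Fin (4 + 1)) => eval b (pderiv l (H (σ (Fin.castAdd (m + 1) i))))) hli
        apply Submodule.eq_top_of_finrank_eq
        rw [Module.finrank_fin_fun]
        rw [Fintype.card_fin] at h2
        exact h2
      obtain ⟨a, ha⟩ := h1 u
      refine ⟨a, fun i => ?_⟩
      rw [← ha]
      simp only [Matrix.mulVecLin_apply, Matrix.mulVec, dotProduct, Matrix.of_apply]
      exact Finset.sum_congr rfl fun l _ => mul_comm _ _
    obtain ⟨w1, hw1⟩ := hsurj (Pi.single 0 1)
    obtain ⟨w2, hw2⟩ := hsurj (Pi.single ⟨1, by omega⟩ 1)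
    set J : (Fin (4 + 1) → ℂ) → Fin 6 → ℂ := fun w i => ∑ j, w j * eval b (pderiv j (H i)) with hJ
    have hJlin : ∀ (r s : ℂ), J (fun j => r * w1 j + s * w2 j) =
        fun i => r * J w1 i + s * J w2 i := by
      intro r s
      funext i
      simp only [hJ, Finset.mul_sum, ← Finset.sum_add_distrib]
      exact Finset.sum_congr rfl fun j _ => by ring
    have h01 : (0 : Fin (k + 1)) ≠ ⟨1, by omega⟩ := by
      intro h
      have := congrArg Fin.val h
      simp at this
    refine ⟨![x, J w1, J w2], ?_, ⟨Pi.single 0 1, ?_⟩, ?_⟩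
    · rw [Fintype.linearIndependent_iff]
      intro g hg
      have h1 : ∀ i, g 0 * x i + g 1 * J w1 i + g 2 * J w2 i = 0 := by
        intro i
        have h2 := congrFun hg i
        rw [Finset.sum_apply, Fin.sum_univ_three, Pi.zero_apply] at h2
        exact h2
      have h0 : g 0 = 0 := by
        by_contra h0
        apply hxJ
        refine ⟨fun j => (-(g 1 / g 0)) * w1 j + (-(g 2 / g 0)) * w2 j, ?_⟩
        change x = J _
        rw [hJlin]
        funext i
        have h2 := h1 i
        field_simp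
        linear_combination h2
      have e1 : J w1 (σ (Fin.castAdd (m + 1) 0)) = 1 := by
        have h3 := hw1 0
        rwa [Pi.single_eq_same] at h3
      have e2 : J w2 (σ (Fin.castAdd (m + 1) 0)) = 0 := by
        have h3 := hw2 0
        rwa [Pi.single_eq_of_ne h01] at h3
      have e3 : J w1 (σ (Fin.castAdd (m + 1) ⟨1, by omega⟩)) = 0 := by
        have h3 := hw1 ⟨1, by omega⟩
        rwa [Pi.single_eq_of_ne h01.symm] at h3
      have e4 : J w2 (σ (Fin.castAdd (m + 1) ⟨1, by omega⟩)) = 1 := by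
        have h3 := hw2 ⟨1, by omega⟩
        rwa [Pi.single_eq_same] at h3
      have h6 := h1 (σ (Fin.castAdd (m + 1) 0))
      rw [h0, e1, e2, zero_mul, zero_add, mul_one, mul_zero, add_zero] at h6
      have h7 := h1 (σ (Fin.castAdd (m + 1) ⟨1, by omega⟩))
      rw [h0, e3, e4, zero_mul, zero_add, mul_one, mul_zero, zero_add] at h7
      intro i
      fin_cases i
      · exact h0
      · exact h6
      · exact h7
    · funext i
      rw [Fin.sum_univ_three]
      simp
    · intro c
      have h1 : (fun i => ∑ l, c l * (![x, J w1, J w2] : Fin 3 → Fin 6 → ℂ) l i) =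
          fun i => c 0 * x i + J (fun j => c 1 * w1 j + c 2 * w2 j) i := by
        rw [hJlin]
        funext i
        rw [Fin.sum_univ_three, add_assoc]
        rfl
      rw [h1]
      by_cases hc : c 0 = 0
      · have h2 := hA (fun j => c 1 * w1 j + c 2 * w2 j)
        rw [hc]
        simp only [zero_mul, zero_add]
        exact h2
      · have h2 := hx (fun j => (c 0)⁻¹ * (c 1 * w1 j + c 2 * w2 j))
        have h3 : (fun i => c 0 * x i + J (fun j => c 1 * w1 j + c 2 * w2 j) i) =
            fun i => c 0 * (x i + ∑ j, (c 0)⁻¹ * (c 1 * w1 j + c 2 * w2 j) *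
              eval b (pderiv j (H i))) := by
          funext i
          rw [mul_add, Finset.mul_sum]
          congr 1
          refine Finset.sum_congr rfl fun j _ => ?_
          rw [mul_assoc (c 0)⁻¹, mul_inv_cancel_left₀ hc]
        rw [h3, ← aeval_eq_eval, aeval_smul_form hF, aeval_eq_eval, h2, mul_zero]

end

end Pool.Agent.Helper2K9.Cub
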