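import Mathlib
import Pool.Agent.TH314.PD.Core2
import Pool.Agent.R845.Zero

/-! # Three ternary quadratic forms without common zeros have no linear syzygy -/

set_option autoImplicit false

namespace Pool.Agent.Helper2K9.Cub

open MvPolynomial Pool.Agent.TH314.PD

/-- the symmetric matrix of a quadratic form -/
theorem quad_coeff {n : ℕ} (A : MvPolynomial (Fin n) ℂ) (hA : A.IsHomogeneous 2) :
    ∃ q : Fin n → Fin n → ℂ, (∀ k l, q k l = q l k) ∧
      ∀ u : Fin n → ℂ, eval u A = ∑ k, ∑ l, q k l * u k * u l := by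
  have h2 : ∀ i, (pderiv i A).IsHomogeneous 1 := fun i => by
    have := hA.pderiv (i := i)
    exact this
  have h3 : ∀ i j, (pderiv j (pderiv i A)).IsHomogeneous 0 := fun i j => by
    have := (h2 i).pderiv (i := j)
    exact this
  have h4 : ∀ i j, ∃ c : ℂ, pderiv j (pderiv i A) = C c := fun i j => by
    have h5 := (h3 i j).totalDegree_le
    rw [Nat.le_zero, totalDegree_eq_zero_iff_eq_C] at h5
    exact ⟨_, h5⟩
  choose c hc using h4
  have e3 : ∀ i, pderiv i A = ∑ k, X k * C (c i k) := fun i => by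
    have := (h2 i).sum_X_mul_pderiv
    rw [one_smul] at this
    rw [← this]
    exact Finset.sum_congr rfl fun k _ => by rw [hc]
  have e2 : (2 : MvPolynomial (Fin n) ℂ) * A = ∑ j, X j * ∑ k, X k * C (c j k) := by
    have := hA.sum_X_mul_pderiv
    rw [nsmul_eq_mul] at this
    rw [show (2 : MvPolynomial (Fin n) ℂ) = ((2 : ℕ) : MvPolynomial (Fin n) ℂ) by norm_num, ← this]
    exact Finset.sum_congr rfl fun j _ => by rw [e3]
  refine ⟨fun k l => c k l / 2, fun k l => ?_, fun u => ?_⟩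
  · have : C (c k l) = (C (c l k) : MvPolynomial (Fin n) ℂ) := by
      rw [← hc, ← hc, pderiv_comm' l k]
    change c k l / 2 = c l k / 2
    rw [C_injective _ _ this]
  · have h5 := congrArg (eval u) e2
    rw [map_mul, map_ofNat] at h5
    have h6 : eval u A = (∑ j, u j * ∑ k, u k * c j k) / 2 := by
      rw [eq_div_iff two_ne_zero, mul_comm, h5, map_sum]
      refine Finset.sum_congr rfl fun j _ => ?_
      rw [map_mul, eval_X, map_sum]
      congr 1
      refine Finset.sum_congr rfl fun k _ => ?_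
      rw [map_mul, eval_X, eval_C]
    rw [h6, Finset.sum_div]
    refine Finset.sum_congr rfl fun j _ => ?_
    rw [Finset.mul_sum, Finset.sum_div]
    refine Finset.sum_congr rfl fun k _ => ?_
    ring

/-- the Koszul case: `x A_0 + y A_1 + z A_2 = 0` forces a common zero -/
theorem koszul (A : Fin 3 → MvPolynomial (Fin 3) ℂ) (hA : ∀ j, (A j).IsHomogeneous 2)
    (h : ∀ u : Fin 3 → ℂ, ∑ j, u j * eval u (A j) = 0) :
    ∃ u : Fin 3 → ℂ, u ≠ 0 ∧ ∀ j, eval u (A j) = 0 := by
  choose q hq hqA using fun j => quad_coeff (A j) (hA j)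
  have s10 := fun i => hq i 1 0
  have s20 := fun i => hq i 2 0
  have s21 := fun i => hq i 2 1
  simp only [hqA, Fin.sum_univ_three, s10, s20, s21] at h
  -- relations
  have r0 : q 0 0 0 = 0 := by
    have := h ![1, 0, 0]
    simpa using this
  have r1 : q 1 1 1 = 0 := by
    have := h ![0, 1, 0]
    simpa using this
  have r2 : q 2 2 2 = 0 := by
    have := h ![0, 0, 1]
    simpa using this
  have a1 := h ![1, 1, 0]
  have a2 := h ![1, -1, 0]
  have b1 := h ![1, 0, 1]
  have b2 := h ![1, 0, -1]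
  have c1 := h ![0, 1, 1]
  have c2 := h ![0, 1, -1]
  have d := h ![1, 1, 1]
  simp only [Matrix.cons_val_zero, Matrix.cons_val_one, Matrix.cons_val, mul_one, one_mul,
    mul_zero, zero_mul, add_zero, zero_add, mul_neg, neg_mul, neg_neg] at a1 a2 b1 b2 c1 c2 d
  have r3 : q 0 1 1 + 2 * q 1 0 1 = 0 := by
    linear_combination (a1 + a2) / 2 - r0
  have r4 : q 1 0 0 + 2 * q 0 0 1 = 0 := by
    linear_combination (a1 - a2) / 2 - r1
  have r5 : q 0 2 2 + 2 * q 2 0 2 = 0 := by
    linear_combination (b1 + b2) / 2 - r0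
  have r6 : q 2 0 0 + 2 * q 0 0 2 = 0 := by
    linear_combination (b1 - b2) / 2 - r2
  have r7 : q 1 2 2 + 2 * q 2 1 2 = 0 := by
    linear_combination (c1 + c2) / 2 - r1
  have r8 : q 2 1 1 + 2 * q 1 1 2 = 0 := by
    linear_combination (c1 - c2) / 2 - r2
  have r9 : q 0 1 2 + q 1 0 2 + q 2 0 1 = 0 := by
    linear_combination (d - r0 - r1 - r2 - r3 - r4 - r5 - r6 - r7 - r8) / 2
  -- the eigenvector
  let M : Matrix (Fin 3) (Fin 3) ℂ := Matrix.of ![fun k => q 1 2 k - q 2 1 k,
    fun k => q 2 0 k - q 0 2 k, fun k => q 0 1 k - q 1 0 k]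
  obtain ⟨μ, hμ⟩ := Module.End.exists_eigenvalue (Matrix.toLin' M)
  obtain ⟨u, hu⟩ := hμ.exists_hasEigenvector
  have hu0 := hu.2
  have hu1 := hu.apply_eq_smul
  refine ⟨u, hu0, ?_⟩
  rw [Matrix.toLin'_apply] at hu1
  have e0 := congrFun hu1 0
  have e1 := congrFun hu1 1
  have e2 := congrFun hu1 2
  simp only [M, Matrix.mulVec, dotProduct, Fin.sum_univ_three, Matrix.of_apply, Pi.smul_apply,
    smul_eq_mul, Matrix.cons_val_zero, Matrix.cons_val_one, Matrix.cons_val, s10, s20, s21]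
    at e0 e1 e2
  intro j
  rw [hqA]
  simp only [Fin.sum_univ_three, s10, s20, s21]
  fin_cases j
  · simp only [Fin.zero_eta]
    linear_combination (2 / 3 : ℂ) * (u 1 * e2 - u 2 * e1) + u 0 * u 0 * r0 +
      (2 / 3 : ℂ) * (u 0 * u 1 * r4 + u 0 * u 2 * r6 + u 1 * u 2 * r9) +
      (1 / 3 : ℂ) * (u 1 * u 1 * r3 + u 2 * u 2 * r5)
  · simp only [Fin.mk_one]
    linear_combination (2 / 3 : ℂ) * (u 2 * e0 - u 0 * e2) + u 1 * u 1 * r1 +
      (2 / 3 : ℂ) * (u 0 * u 1 * r3 + u 0 * u 2 * r9 + u 1 * u 2 * r8) +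
      (1 / 3 : ℂ) * (u 0 * u 0 * r4 + u 2 * u 2 * r7)
  · simp only [Fin.reduceFinMk]
    linear_combination (2 / 3 : ℂ) * (u 0 * e1 - u 1 * e0) + u 2 * u 2 * r2 +
      (2 / 3 : ℂ) * (u 0 * u 1 * r9 + u 0 * u 2 * r5 + u 1 * u 2 * r7) +
      (1 / 3 : ℂ) * (u 0 * u 0 * r6 + u 1 * u 1 * r8)

/-- a linear form and a quadratic form, or two quadratic forms, in three variables have a common
zero -/
theorem two_forms (B C' : MvPolynomial (Fin 3) ℂ) (hB : eval 0 B = 0) (hC : eval 0 C' = 0) :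
    ∃ u : Fin 3 → ℂ, u ≠ 0 ∧ eval u B = 0 ∧ eval u C' = 0 := by
  obtain ⟨u, hu, h⟩ := Pool.Agent.R845.exists_other_zero' (n := 3) (ι := Fin 2)
    (by rw [Fintype.card_fin]; omega) ![B, C'] (0 : Fin 3 → ℂ) (by
      intro i
      fin_cases i
      · exact hB
      · exact hC)
  exact ⟨u, hu, h 0, h 1⟩

theorem eval_zero_hom {n d : ℕ} (hd : d ≠ 0) {A : MvPolynomial (Fin n) ℂ} (hA : A.IsHomogeneous d) :
    eval 0 A = 0 := by
  rw [← coe_aeval_eq_eval, RingHom.coe_coe]
  have h1 := aeval_smul_form (A := ℂ) hA 0 (0 : Fin n → ℂ)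
  simp only [Pi.zero_apply, mul_zero, zero_pow hd, zero_mul] at h1
  exact h1

theorem fin3 : ∀ a b c : Fin 3, a ≠ b → a ≠ c → b ≠ c → ∀ j, j = a ∨ j = b ∨ j = c := by
  decide

/-- the diagonal case, one vanishing coefficient -/
theorem diag_one (B : Fin 3 → MvPolynomial (Fin 3) ℂ) (hB : ∀ j, (B j).IsHomogeneous 2)
    (h0 : ∀ u : Fin 3 → ℂ, (∀ j, eval u (B j) = 0) → u = 0) (D : Fin 3 → ℂ)
    (h : ∑ j, C (D j) * X j * B j = 0) (a b c : Fin 3) (hab : a ≠ b) (hac : a ≠ c) (hbc : b ≠ c)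
    (ha : D a = 0) (hb : D b ≠ 0) : False := by
  have huniv := fin3 a b c hab hac hbc
  have hsum : C (D b) * X b * B b + C (D c) * X c * B c = 0 := by
    have h1 : (Finset.univ : Finset (Fin 3)) = {a, b, c} := by
      ext j
      rw [Finset.mem_insert, Finset.mem_insert, Finset.mem_singleton]
      exact ⟨fun _ => huniv j, fun _ => Finset.mem_univ _⟩
    rw [h1, Finset.sum_insert, Finset.sum_insert, Finset.sum_singleton, ha, C_0, zero_mul,
      zero_mul, zero_add] at h
    · exact h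
    · rw [Finset.mem_singleton]; exact hbc
    · rw [Finset.mem_insert, Finset.mem_singleton]
      rintro (h2 | h2)
      · exact hab h2
      · exact hac h2
  have hz := fun j => eval_zero_hom two_ne_zero (hB j)
  -- a common zero of `B b`, `B c`
  have hX : ¬ (X c : MvPolynomial (Fin 3) ℂ) ∣ X b := by
    intro h1
    have h2 := (X_dvd_X (R := ℂ)).1 h1
    exact hbc h2.symm
  have hXc : Prime (X c : MvPolynomial (Fin 3) ℂ) := X_prime
  have hdvd : (X c : MvPolynomial (Fin 3) ℂ) ∣ B b := by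
    have h1 : (X c : MvPolynomial (Fin 3) ℂ) ∣ C (D b) * X b * B b :=
      ⟨-(C (D c) * B c), by linear_combination hsum⟩
    rcases hXc.dvd_or_dvd h1 with h2 | h2
    · exfalso
      rcases hXc.dvd_or_dvd h2 with h3 | h3
      · have h4 : IsUnit (C (D b) : MvPolynomial (Fin 3) ℂ) :=
          (isUnit_iff_ne_zero.2 hb).map C
        exact hXc.not_isUnit (isUnit_of_dvd_unit h3 h4)
      · exact hX h3
    · exact h2
  obtain ⟨E, hE⟩ := hdvd
  have hE0 : eval 0 E = 0 := by
    have h1 : eval 0 E = constantCoeff E := by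
      rw [← eval_zero']
      rfl
    rw [h1, constantCoeff_eq]
    have h2 := coeff_X_mul (0 : Fin 3 →₀ ℕ) c E
    rw [← hE, add_zero] at h2
    rw [← h2]
    apply (hB b).coeff_eq_zero
    rw [Finsupp.degree_single]
    norm_num
  by_cases hc : D c = 0
  · rw [hc, C_0, zero_mul, zero_mul, add_zero] at hsum
    have h1 : B b = 0 := by
      rcases mul_eq_zero.1 hsum with h2 | h2
      · exfalso
        rcases mul_eq_zero.1 h2 with h3 | h3
        · exact hb (C_injective _ _ (h3.trans C_0.symm))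
        · exact X_ne_zero b h3
      · exact h2
    obtain ⟨u, hu, h2, h3⟩ := two_forms (B a) (B c) (hz a) (hz c)
    apply hu
    apply h0
    intro j
    rcases huniv j with rfl | rfl | rfl
    · exact h2
    · rw [h1, map_zero]
    · exact h3
  · obtain ⟨u, hu, h1, h2⟩ := two_forms E (B a) hE0 (hz a)
    have h3 : C (D c) * B c = -(C (D b) * X b * E) := by
      apply mul_left_cancel₀ (X_ne_zero (R := ℂ) c)
      rw [hE] at hsum
      linear_combination hsum
    apply hu
    apply h0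
    intro j
    rcases huniv j with rfl | rfl | rfl
    · exact h2
    · rw [hE, map_mul, h1, mul_zero]
    · have h4 := congrArg (eval u) h3
      rw [map_mul, map_neg, map_mul, h1, mul_zero, neg_zero, eval_C] at h4
      exact (mul_eq_zero.1 h4).resolve_left hc

/-- the diagonal case -/
theorem diag_case (B : Fin 3 → MvPolynomial (Fin 3) ℂ) (hB : ∀ j, (B j).IsHomogeneous 2)
    (h0 : ∀ u : Fin 3 → ℂ, (∀ j, eval u (B j) = 0) → u = 0) (D : Fin 3 → ℂ)
    (h : ∑ j, C (D j) * X j * B j = 0) : D = 0 := by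
  by_contra hD
  obtain ⟨b, hb⟩ := Function.ne_iff.1 hD
  rw [Pi.zero_apply] at hb
  by_cases hz : ∃ a, D a = 0
  · obtain ⟨a, ha⟩ := hz
    have hab : a ≠ b := fun h1 => hb (h1 ▸ ha)
    have h1 : ∀ a b : Fin 3, a ≠ b → ∃ c, a ≠ c ∧ b ≠ c := by decide
    obtain ⟨c, hac, hbc⟩ := h1 a b hab
    exact diag_one B hB h0 D h a b c hab hac hbc ha hb
  · push Not at hz
    obtain ⟨u, hu, h1⟩ := koszul (fun j => C (D j) * B j) (fun j => by
      have h2 := (isHomogeneous_C (Fin 3) (D j)).mul (hB j)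
      rwa [zero_add] at h2) (fun u => by
      have h2 := congrArg (eval u) h
      rw [map_sum, map_zero] at h2
      rw [← h2]
      refine Finset.sum_congr rfl fun j _ => ?_
      rw [map_mul, map_mul, map_mul, eval_C, eval_X]
      ring)
    apply hu
    apply h0
    intro j
    have h2 := h1 j
    rw [map_mul, eval_C] at h2
    exact (mul_eq_zero.1 h2).resolve_left (hz j)

/-- three ternary quadratic forms without a common zero have no linear syzygy -/
theorem no_syzygy (A : Fin 3 → MvPolynomial (Fin 3) ℂ) (hA : ∀ j, (A j).IsHomogeneous 2)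
    (h0 : ∀ u : Fin 3 → ℂ, (∀ j, eval u (A j) = 0) → u = 0) (V : Matrix (Fin 3) (Fin 3) ℂ)
    (hV : ∀ u : Fin 3 → ℂ, ∑ j, (V.mulVec u) j * eval u (A j) = 0) : V = 0 := by
  obtain ⟨L, L', D, hLD⟩ := Matrix.Pivot.exists_list_transvec_mul_diagonal_mul_list_transvec V
  set P := (L.map Matrix.TransvectionStruct.toMatrix).prod with hP
  set R := (L'.map Matrix.TransvectionStruct.toMatrix).prod with hR
  have hPd : P.det = 1 := Matrix.TransvectionStruct.det_toMatrix_prod L
  have hRd : R.det = 1 := Matrix.TransvectionStruct.det_toMatrix_prod L'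
  have hRu : IsUnit R.det := by rw [hRd]; exact isUnit_one
  have hPu : IsUnit P.det := by rw [hPd]; exact isUnit_one
  -- the new forms
  let sb : Fin 3 → MvPolynomial (Fin 3) ℂ := fun i => ∑ k, C (R⁻¹ i k) * X k
  have hsb : ∀ i, (sb i).IsHomogeneous 1 := fun i =>
    IsHomogeneous.sum _ _ _ fun k _ => by
      have h2 := (isHomogeneous_C (Fin 3) (R⁻¹ i k)).mul (isHomogeneous_X ℂ k)
      rwa [zero_add] at h2
  have hev : ∀ (z : Fin 3 → ℂ) (Q : MvPolynomial (Fin 3) ℂ),
      eval z (aeval sb Q) = eval (R⁻¹.mulVec z) Q := by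
    intro z Q
    rw [← aeval_eq_eval, ← aeval_eq_eval]
    have h1 := comp_aeval_apply (f := sb) (aeval z : MvPolynomial (Fin 3) ℂ →ₐ[ℂ] ℂ) Q
    rw [h1]
    congr 2
    funext i
    simp only [sb, map_sum, map_mul, aeval_X, aeval_C, Algebra.algebraMap_self, RingHom.id_apply]
    rfl
  let B : Fin 3 → MvPolynomial (Fin 3) ℂ := fun j => ∑ i, C (P i j) * aeval sb (A i)
  have hB : ∀ j, (B j).IsHomogeneous 2 := fun j =>
    IsHomogeneous.sum _ _ _ fun i _ => by
      have h2 := (hA i).aeval sb hsb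
      have h3 := (isHomogeneous_C (Fin 3) (P i j)).mul h2
      simpa using h3
  have hBe : ∀ j z, eval z (B j) = ∑ i, P i j * eval (R⁻¹.mulVec z) (A i) := by
    intro j z
    simp only [B]
    rw [map_sum]
    refine Finset.sum_congr rfl fun i _ => ?_
    rw [map_mul, eval_C, hev]
  have hRR : ∀ z : Fin 3 → ℂ, R.mulVec (R⁻¹.mulVec z) = z := by
    intro z
    rw [Matrix.mulVec_mulVec, Matrix.mul_nonsing_inv _ hRu, Matrix.one_mulVec]
  have hD : D = 0 := by
    apply diag_case B hB ?_ D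
    · apply MvPolynomial.funext
      intro z
      rw [map_zero, map_sum, ← hV (R⁻¹.mulVec z)]
      have h1 : ∀ i, (V.mulVec (R⁻¹.mulVec z)) i = ∑ j, P i j * (D j * z j) := by
        intro i
        rw [hLD, ← Matrix.mulVec_mulVec, hRR, ← Matrix.mulVec_mulVec]
        change ∑ j, P i j * (Matrix.diagonal D).mulVec z j = _
        refine Finset.sum_congr rfl fun j _ => ?_
        rw [Matrix.mulVec_diagonal]
      simp only [h1, map_mul, eval_C, eval_X, hBe, Finset.mul_sum, Finset.sum_mul]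
      rw [Finset.sum_comm]
      refine Finset.sum_congr rfl fun j _ => Finset.sum_congr rfl fun i _ => ?_
      ring
    · intro z hz
      have h1 : P.transpose.mulVec (fun i => eval (R⁻¹.mulVec z) (A i)) = 0 := by
        funext j
        have h2 := hz j
        rw [hBe] at h2
        rw [Pi.zero_apply, ← h2]
        rfl
      have h2 : (fun i => eval (R⁻¹.mulVec z) (A i)) = 0 := by
        apply Matrix.eq_zero_of_mulVec_eq_zero _ h1
        rw [Matrix.det_transpose, hPd]
        exact one_ne_zero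
      have h3 := h0 (R⁻¹.mulVec z) (fun j => congrFun h2 j)
      rw [← hRR z, h3, Matrix.mulVec_zero]
  rw [hLD, hD]
  simp

end Pool.Agent.Helper2K9.Cub
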