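import Mathlib
import Pool.Agent.Y201.C3.Tri
import Pool.Agent.R845.E3.Stm
import Pool.Agent.Helper2K9.Cub.Syz

/-! # A smooth cubic fourfold contains only countably many planes -/

set_option autoImplicit false

namespace Pool.Agent.Helper2K9.Cub

open MvPolynomial Pool.Agent.Y201.C3 Pool.Agent.R845.E3 Filter Topology

noncomputable section

/-- polarization along a linear map -/
theorem polarL {n N : ℕ} {T : Fin N → Fin N → Fin N → ℂ} (hT : SymG T)
    (L : (Fin n → ℂ) → (Fin N → ℂ))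
    (hL : ∀ (a : ℂ) (x y : Fin n → ℂ), L (fun i => x i + a * y i) = fun i => L x i + a * L y i)
    (h : ∀ x, Bg T (L x) (L x) (L x) = 0) (x y z : Fin n → ℂ) : Bg T (L x) (L y) (L z) = 0 := by
  have hexp : ∀ (a : ℂ) (x y : Fin N → ℂ), Bg T (fun i => x i + a * y i) (fun i => x i + a * y i)
      (fun i => x i + a * y i) = Bg T x x x + 3 * a * Bg T x x y + 3 * a ^ 2 * Bg T x y y +
        a ^ 3 * Bg T y y y := by
    intro a x y
    simp only [Bg_add1, Bg_add2, Bg_add3, Bg_smul1, Bg_smul2, Bg_smul3]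
    rw [Bg_swap12 hT y x y, Bg_swap12 hT y x x, Bg_swap23 hT x y x, Bg_swap23 hT y y x,
      Bg_swap12 hT y x y]
    ring
  have h2 : ∀ x y : Fin n → ℂ, Bg T (L x) (L x) (L y) = 0 := by
    intro x y
    have e1 := hexp 1 (L x) (L y)
    have e2 := hexp (-1) (L x) (L y)
    rw [← hL, h, h, h] at e1 e2
    linear_combination (-1 / 6 : ℂ) * e1 + (1 / 6 : ℂ) * e2
  have hexp2 : ∀ (a : ℂ) (x y z : Fin N → ℂ), Bg T (fun i => x i + a * y i) (fun i => x i + a * y i)
      z = Bg T x x z + 2 * a * Bg T x y z + a ^ 2 * Bg T y y z := by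
    intro a x y z
    simp only [Bg_add1, Bg_add2, Bg_smul1, Bg_smul2]
    rw [Bg_swap12 hT y x z]
    ring
  have e1 := hexp2 1 (L x) (L y) (L z)
  rw [← hL, h2, h2, h2] at e1
  linear_combination (-1 / 2 : ℂ) * e1

/-- points of the plane with matrix `U` in the chart `σ` -/
def pl {R : Type} [CommRing R] [Algebra ℂ R] (σ : Fin (3 + 3) ≃ Fin 6) (U : Fin 3 → Fin 3 → ℂ)
    (u : Fin 3 → R) : Fin 6 → R :=
  fun i => (Fin.append u (fun j => ∑ i, algebraMap ℂ R (U i j) * u i) : Fin (3 + 3) → R) (σ.symm i)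

/-- the vectors of the complement -/
def cp (σ : Fin (3 + 3) ≃ Fin 6) (w : Fin 3 → ℂ) : Fin 6 → ℂ :=
  fun i => (Fin.append 0 w : Fin (3 + 3) → ℂ) (σ.symm i)

theorem pl_left {R : Type} [CommRing R] [Algebra ℂ R] (σ : Fin (3 + 3) ≃ Fin 6)
    (U : Fin 3 → Fin 3 → ℂ) (u : Fin 3 → R) (i : Fin 3) : pl σ U u (σ (Fin.castAdd 3 i)) = u i := by
  unfold pl
  rw [Equiv.symm_apply_apply, Fin.append_left]

theorem pl_right {R : Type} [CommRing R] [Algebra ℂ R] (σ : Fin (3 + 3) ≃ Fin 6)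
    (U : Fin 3 → Fin 3 → ℂ) (u : Fin 3 → R) (j : Fin 3) :
    pl σ U u (σ (Fin.natAdd 3 j)) = ∑ i, algebraMap ℂ R (U i j) * u i := by
  unfold pl
  rw [Equiv.symm_apply_apply, Fin.append_right]

theorem cp_left (σ : Fin (3 + 3) ≃ Fin 6) (w : Fin 3 → ℂ) (i : Fin 3) :
    cp σ w (σ (Fin.castAdd 3 i)) = 0 := by
  unfold cp
  rw [Equiv.symm_apply_apply, Fin.append_left, Pi.zero_apply]

theorem cp_right (σ : Fin (3 + 3) ≃ Fin 6) (w : Fin 3 → ℂ) (j : Fin 3) :
    cp σ w (σ (Fin.natAdd 3 j)) = w j := by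
  unfold cp
  rw [Equiv.symm_apply_apply, Fin.append_right]

theorem ext6 {R : Type} (σ : Fin (3 + 3) ≃ Fin 6) {x y : Fin 6 → R}
    (h1 : ∀ i : Fin 3, x (σ (Fin.castAdd 3 i)) = y (σ (Fin.castAdd 3 i)))
    (h2 : ∀ j : Fin 3, x (σ (Fin.natAdd 3 j)) = y (σ (Fin.natAdd 3 j))) : x = y := by
  funext i
  obtain ⟨i', rfl⟩ := σ.surjective i
  exact Fin.addCases h1 h2 i'

theorem pl_lin (σ : Fin (3 + 3) ≃ Fin 6) (U : Fin 3 → Fin 3 → ℂ) (a : ℂ) (x y : Fin 3 → ℂ) :
    pl σ U (fun i => x i + a * y i) = fun i => pl σ U x i + a * pl σ U y i := by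
  apply ext6 σ
  · intro i
    simp only [pl_left]
  · intro j
    simp only [pl_right, Finset.mul_sum, ← Finset.sum_add_distrib]
    exact Finset.sum_congr rfl fun i _ => by ring

theorem pl_add (σ : Fin (3 + 3) ≃ Fin 6) (U D : Fin 3 → Fin 3 → ℂ) (u : Fin 3 → ℂ) :
    pl σ (U + D) u = fun i => pl σ U u i + cp σ (fun j => ∑ i, D i j * u i) i := by
  apply ext6 σ
  · intro i
    simp only [pl_left, cp_left, add_zero]
  · intro j
    simp only [pl_right, cp_right, ← Finset.sum_add_distrib, Pi.add_apply]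
    exact Finset.sum_congr rfl fun i _ => by
      simp only [Algebra.algebraMap_self, RingHom.id_apply]
      ring

theorem Bg_cont {N : ℕ} (T : Fin N → Fin N → Fin N → ℂ) {α : Type} {l : Filter α}
    {x y z : α → Fin N → ℂ} {x0 y0 z0 : Fin N → ℂ} (hx : Tendsto x l (𝓝 x0))
    (hy : Tendsto y l (𝓝 y0)) (hz : Tendsto z l (𝓝 z0)) :
    Tendsto (fun a => Bg T (x a) (y a) (z a)) l (𝓝 (Bg T x0 y0 z0)) := by
  unfold Bg
  refine tendsto_finsetSum _ fun i _ => tendsto_finsetSum _ fun j _ => tendsto_finsetSum _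
    fun k _ => ?_
  exact ((tendsto_const_nhds.mul (tendsto_pi_nhds.1 hx i)).mul (tendsto_pi_nhds.1 hy j)).mul
    (tendsto_pi_nhds.1 hz k)

theorem cp_cont (σ : Fin (3 + 3) ≃ Fin 6) (u : Fin 3 → ℂ) :
    Continuous fun D : Fin 3 → Fin 3 → ℂ => cp σ (fun j => ∑ i, D i j * u i) := by
  rw [continuous_pi_iff]
  intro i
  obtain ⟨i', rfl⟩ := σ.surjective i
  refine Fin.addCases (fun i => ?_) (fun j => ?_) i'
  · simp only [cp_left]
    exact continuous_const
  · simp only [cp_right]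
    fun_prop

theorem cp_smul (σ : Fin (3 + 3) ≃ Fin 6) (u : Fin 3 → ℂ) (c : ℂ) (D : Fin 3 → Fin 3 → ℂ) :
    cp σ (fun j => ∑ i, (c • D) i j * u i) = fun s => c * cp σ (fun j => ∑ i, D i j * u i) s := by
  apply ext6 σ
  · intro i
    simp only [cp_left, mul_zero]
  · intro j
    simp only [cp_right, Finset.mul_sum, Pi.smul_apply, smul_eq_mul]
    exact Finset.sum_congr rfl fun i _ => by ring

/-- infinitesimal deformations of a plane which is not isolated -/
theorem deform {T : Fin 6 → Fin 6 → Fin 6 → ℂ} (hT : SymG T) (σ : Fin (3 + 3) ≃ Fin 6)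
    {U : Fin 3 → Fin 3 → ℂ}
    (hU : ∀ u : Fin 3 → ℂ, Bg T (pl σ U u) (pl σ U u) (pl σ U u) = 0)
    (hacc : AccPt U (𝓟 {U : Fin 3 → Fin 3 → ℂ | ∀ u : Fin 3 → ℂ,
      Bg T (pl σ U u) (pl σ U u) (pl σ U u) = 0})) :
    ∃ V : Fin 3 → Fin 3 → ℂ, V ≠ 0 ∧ ∀ u : Fin 3 → ℂ,
      Bg T (cp σ (fun j => ∑ i, V i j * u i)) (pl σ U u) (pl σ U u) = 0 := by
  obtain ⟨V, hV1, hV2⟩ := tangentConeAt_nonempty_of_properSpace (𝕜 := ℂ) hacc
  refine ⟨V, hV2, fun u => ?_⟩
  obtain ⟨α, l, hl, c, d, hd, hs, hcd⟩ := exists_fun_of_mem_tangentConeAt hV1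
  set z0 := pl σ U u with hz0
  let h : (Fin 3 → Fin 3 → ℂ) → Fin 6 → ℂ := fun D => cp σ (fun j => ∑ i, D i j * u i)
  have hh : Continuous h := cp_cont σ u
  have h0 : h 0 = 0 := by
    apply ext6 σ
    · intro i
      simp only [h, cp_left, Pi.zero_apply]
    · intro j
      simp only [h, cp_right, Pi.zero_apply, zero_mul, Finset.sum_const_zero]
  have hd' : Tendsto (fun n => h (d n)) l (𝓝 0) := by
    have := (hh.tendsto 0).comp hd
    rwa [h0] at this
  have hcd' : Tendsto (fun n => h (c n • d n)) l (𝓝 (h V)) := (hh.tendsto V).comp hcd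
  have key : ∀ᶠ n in l, 3 * Bg T (h (c n • d n)) z0 z0 + 3 * Bg T (h (c n • d n)) (h (d n)) z0 +
      Bg T (h (c n • d n)) (h (d n)) (h (d n)) = 0 := by
    filter_upwards [hs] with n hn
    have h1 := hn u
    rw [pl_add] at h1
    have h2 : h (c n • d n) = fun s => c n * h (d n) s := cp_smul σ u (c n) (d n)
    rw [h2]
    have h3 := hU u
    rw [← hz0] at h1 h3
    change Bg T (fun i => z0 i + h (d n) i) (fun i => z0 i + h (d n) i)
      (fun i => z0 i + h (d n) i) = 0 at h1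
    simp only [Bg_add1, Bg_add2, Bg_add3] at h1
    simp only [Bg_smul1]
    have p1 : Bg T z0 z0 (h (d n)) = Bg T (h (d n)) z0 z0 := by
      rw [Bg_swap23 hT, Bg_swap12 hT]
    have p2 : Bg T (h (d n)) z0 (h (d n)) = Bg T (h (d n)) (h (d n)) z0 := by
      rw [Bg_swap23 hT]
    have p3 : Bg T z0 (h (d n)) z0 = Bg T (h (d n)) z0 z0 := by
      rw [Bg_swap12 hT]
    have p4 : Bg T z0 (h (d n)) (h (d n)) = Bg T (h (d n)) (h (d n)) z0 := by
      rw [Bg_swap12 hT, Bg_swap23 hT]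
    rw [h3, p1, p2] at h1
    try rw [p3] at h1
    try rw [p4] at h1
    linear_combination (c n) * h1
  have lim : Tendsto (fun n => 3 * Bg T (h (c n • d n)) z0 z0 +
      3 * Bg T (h (c n • d n)) (h (d n)) z0 + Bg T (h (c n • d n)) (h (d n)) (h (d n))) l
      (𝓝 (3 * Bg T (h V) z0 z0 + 3 * Bg T (h V) 0 z0 + Bg T (h V) 0 0)) :=
    ((tendsto_const_nhds.mul (Bg_cont T hcd' tendsto_const_nhds tendsto_const_nhds)).add
      (tendsto_const_nhds.mul (Bg_cont T hcd' hd' tendsto_const_nhds))).add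
      (Bg_cont T hcd' hd' hd')
  have h4 := tendsto_nhds_unique (lim.congr' key) tendsto_const_nhds
  have z1 : ∀ x y : Fin 6 → ℂ, Bg T x 0 y = 0 := by
    intro x y
    rw [Bg_swap12 hT]
    exact Bg_zero1 T x y
  rw [z1, z1, mul_zero, add_zero, add_zero] at h4
  exact (mul_eq_zero.1 h4).resolve_left (by norm_num)

/-- smoothness in terms of the trilinear form -/
theorem sm_tri {N : ℕ} {T : Fin N → Fin N → Fin N → ℂ} (hT : SymG T)
    (hsm : Sm (Bg T X X X : MvPolynomial (Fin N) ℂ)) (z : Fin N → ℂ)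
    (h : ∀ w, Bg T w z z = 0) : z = 0 := by
  apply hsm
  intro i
  rw [← aeval_eq_eval, pderiv_frmG hT, h, mul_zero]

theorem cp_sum (σ : Fin (3 + 3) ≃ Fin 6) (w : Fin 3 → ℂ) :
    cp σ w = fun s => ∑ j, w j * cp σ (Pi.single j 1) s := by
  apply ext6 σ
  · intro i
    simp only [cp_left, mul_zero, Finset.sum_const_zero]
  · intro j
    simp only [cp_right, Pi.single_apply, mul_ite, mul_one, mul_zero]
    rw [Finset.sum_ite_eq Finset.univ j w, if_pos (Finset.mem_univ _)]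

theorem pl_map {R S : Type} [CommRing R] [Algebra ℂ R] [CommRing S] [Algebra ℂ S] (f : R →ₐ[ℂ] S)
    (σ : Fin (3 + 3) ≃ Fin 6) (U : Fin 3 → Fin 3 → ℂ) (u : Fin 3 → R) :
    (fun i => f (pl σ U u i)) = pl σ U (fun i => f (u i)) := by
  apply ext6 σ
  · intro i
    simp only [pl_left]
  · intro j
    simp only [pl_right, map_sum, map_mul, AlgHom.commutes]

/-- a smooth cubic fourfold contains only countably many planes -/
theorem planes_countable {T : Fin 6 → Fin 6 → Fin 6 → ℂ} (hT : SymG T)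
    (hsm : Sm (Bg T X X X : MvPolynomial (Fin 6) ℂ)) (σ : Fin (3 + 3) ≃ Fin 6) :
    {U : Fin 3 → Fin 3 → ℂ | ∀ u : Fin 3 → ℂ,
      Bg T (pl σ U u) (pl σ U u) (pl σ U u) = 0}.Countable := by
  have hd : DiscreteTopology {U : Fin 3 → Fin 3 → ℂ | ∀ u : Fin 3 → ℂ,
      Bg T (pl σ U u) (pl σ U u) (pl σ U u) = 0} := by
    apply discreteTopology_of_noAccPts
    intro U hU hacc
    obtain ⟨V, hV, h⟩ := deform hT σ hU hacc
    -- the quadratic forms
    let e : Fin 3 → Fin 6 → ℂ := fun j => cp σ (Pi.single j 1)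
    let A : Fin 3 → MvPolynomial (Fin 3) ℂ := fun j =>
      Bg T (fun i => C (e j i)) (pl σ U X) (pl σ U X)
    have hAe : ∀ j (u : Fin 3 → ℂ), eval u (A j) = Bg T (e j) (pl σ U u) (pl σ U u) := by
      intro j u
      rw [← aeval_eq_eval]
      simp only [A]
      rw [map_Bg, pl_map]
      simp only [aeval_X, aeval_C]
      rfl
    have hplh : ∀ s, (pl σ U X s : MvPolynomial (Fin 3) ℂ).IsHomogeneous 1 := by
      intro s
      obtain ⟨s', rfl⟩ := σ.surjective s
      refine Fin.addCases (fun i => ?_) (fun j => ?_) s'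
      · rw [pl_left]
        exact isHomogeneous_X _ _
      · rw [pl_right]
        exact IsHomogeneous.sum _ _ _ fun i _ => (isHomogeneous_X ℂ i).C_mul _
    have hAh : ∀ j, (A j).IsHomogeneous 2 := by
      intro j
      refine IsHomogeneous.sum _ _ _ fun a _ => IsHomogeneous.sum _ _ _ fun b _ =>
        IsHomogeneous.sum _ _ _ fun c _ => ?_
      have h1 := (((isHomogeneous_C (Fin 3) (T a b c)).mul (isHomogeneous_C (Fin 3) (e j a))).mul
        (hplh b)).mul (hplh c)
      simpa using h1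
    have h1 := no_syzygy A hAh ?_ (Matrix.of fun j i => V i j) ?_
    · apply hV
      funext i j
      exact congrFun (congrFun h1 j) i
    · intro u hu
      have h2 : pl σ U u = 0 := by
        apply sm_tri hT hsm
        intro w
        have hw : w = fun s => pl σ U (fun i => w (σ (Fin.castAdd 3 i))) s +
            cp σ (fun j => w (σ (Fin.natAdd 3 j)) - ∑ i, U i j * w (σ (Fin.castAdd 3 i))) s := by
          apply ext6 σ
          · intro i
            simp only [pl_left, cp_left, add_zero]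
          · intro j
            simp only [pl_right, cp_right, Algebra.algebraMap_self, RingHom.id_apply]
            ring
        rw [hw, Bg_add1, polarL hT (pl σ U) (pl_lin σ U) hU, zero_add, cp_sum, Bg_sum1]
        refine Finset.sum_eq_zero fun j _ => ?_
        rw [Bg_smul1, ← hAe, hu, mul_zero]
      funext i
      have h3 := congrFun h2 (σ (Fin.castAdd 3 i))
      rwa [pl_left] at h3
    · intro u
      have h2 := h u
      rw [cp_sum, Bg_sum1] at h2
      rw [← h2]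
      refine Finset.sum_congr rfl fun j _ => ?_
      rw [Bg_smul1, hAe]
      rfl
  exact Set.countable_coe_iff.1 countable_of_Lindelof_of_discrete

end

end Pool.Agent.Helper2K9.Cub
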