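import Mathlib
import Pool.Agent.Helper2K9.Cub.Planes
import Pool.Agent.Helper2K9.Cub.Avoid
import Pool.Agent.R845.E3.Conics
import Pool.Agent.R845.E3.ConP
import Pool.Agent.R845.Zero

/-! # A line of a smooth cubic fourfold which meets no plane of the fourfold -/

set_option autoImplicit false

namespace Pool.Agent.Helper2K9.Cub

open MvPolynomial Pool.Agent.Y201.C3 Pool.Agent.R845.E3 Pool.Agent.TH314.PD

noncomputable section

/-- every plane has a chart -/
theorem chart (v : Fin 3 → Fin 6 → ℂ) (hv : LinearIndependent ℂ v) :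
    ∃ (σ : Fin (3 + 3) ≃ Fin 6) (U : Fin 3 → Fin 3 → ℂ),
      (∀ b : Fin 3 → ℂ, ∃ u, (fun i => ∑ l, b l * v l i) = pl σ U u) ∧
      ∀ u, ∃ b : Fin 3 → ℂ, pl σ U u = fun i => ∑ l, b l * v l i := by
  classical
  have hv' : ∀ b : Fin 3 → ℂ, (∀ i, ∑ l, b l * v l i = 0) → b = 0 := by
    intro b hb
    funext l
    refine Fintype.linearIndependent_iff.1 hv b ?_ l
    funext i
    rw [Finset.sum_apply, Pi.zero_apply, ← hb i]
    rfl
  obtain ⟨k, m, σ, U, hli, hU⟩ := rows' (fun i l => v l i) (by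
    intro h
    have h1 := hv' (Pi.single 0 1) (fun i => by
      have h2 := congrFun (congrFun h i) 0
      simp only [Pi.zero_apply] at h2
      refine Finset.sum_eq_zero fun l _ => ?_
      by_cases hl : l = 0
      · rw [hl, h2, mul_zero]
      · rw [Pi.single_eq_of_ne hl, zero_mul])
    have h2 := congrFun h1 0
    rw [Pi.single_eq_same, Pi.zero_apply] at h2
    exact one_ne_zero h2) (by
    intro h
    have h1 : Function.Surjective (Matrix.mulVecLin (Matrix.of fun (i : Fin 6) (l : Fin 3) =>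
        v l i)) := by
      intro u
      obtain ⟨a, ha⟩ := h u
      refine ⟨a, ?_⟩
      funext i
      rw [← ha i]
      simp only [Matrix.mulVecLin_apply, Matrix.mulVec, dotProduct, Matrix.of_apply]
      exact Finset.sum_congr rfl fun l _ => mul_comm _ _
    have h2 := LinearMap.finrank_le_finrank_of_surjective h1
    rw [Module.finrank_fin_fun, Module.finrank_fin_fun] at h2
    omega)
  have hkm : k + 1 + (m + 1) = 6 := by
    have h1 := Fintype.card_congr σ
    rwa [Fintype.card_fin, Fintype.card_fin] at h1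
  have hk1 : k + 1 ≤ 3 := by
    have h1 := hli.fintype_card_le_finrank
    rwa [Module.finrank_fin_fun, Fintype.card_fin] at h1
  have hinj : ∀ b : Fin 3 → ℂ, (∀ i : Fin (k + 1),
      ∑ l, b l * v l (σ (Fin.castAdd (m + 1) i)) = 0) → b = 0 := by
    intro b hb
    apply hv'
    intro i
    obtain ⟨i', rfl⟩ := σ.surjective i
    refine Fin.addCases hb (fun j => ?_) i'
    have h1 : ∀ l, v l (σ (Fin.natAdd (k + 1) j)) =
        ∑ i, U i j * v l (σ (Fin.castAdd (m + 1) i)) := fun l => hU j l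
    simp only [h1, Finset.mul_sum]
    rw [Finset.sum_comm]
    refine Finset.sum_eq_zero fun i _ => ?_
    have h2 : ∀ l, b l * (U i j * v l (σ (Fin.castAdd (m + 1) i))) =
        U i j * (b l * v l (σ (Fin.castAdd (m + 1) i))) := fun l => by ring
    simp only [h2]
    rw [← Finset.mul_sum, hb, mul_zero]
  let L : (Fin 3 → ℂ) →ₗ[ℂ] (Fin (k + 1) → ℂ) :=
    { toFun := fun b i => ∑ l, b l * v l (σ (Fin.castAdd (m + 1) i))
      map_add' := by
        intro b b'
        funext i
        simp only [Pi.add_apply, add_mul, Finset.sum_add_distrib]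
      map_smul' := by
        intro c b
        funext i
        simp only [Pi.smul_apply, smul_eq_mul, RingHom.id_apply, Finset.mul_sum, mul_assoc] }
  have hL : Function.Injective L := by
    rw [← LinearMap.ker_eq_bot, LinearMap.ker_eq_bot']
    intro b hb
    exact hinj b fun i => congrFun hb i
  have hk2 : 3 ≤ k + 1 := by
    have h1 := LinearMap.finrank_le_finrank_of_injective hL
    rwa [Module.finrank_fin_fun, Module.finrank_fin_fun] at h1
  obtain rfl : k = 2 := by omega
  obtain rfl : m = 2 := by omega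
  have hLs : Function.Surjective L := by
    rw [← LinearMap.injective_iff_surjective_of_finrank_eq_finrank rfl]
    exact hL
  have key : ∀ b : Fin 3 → ℂ, (fun i => ∑ l, b l * v l i) = pl σ U (L b) := by
    intro b
    apply ext6 σ
    · intro i
      rw [pl_left]
      rfl
    · intro j
      rw [pl_right]
      have h1 : ∀ l, v l (σ (Fin.natAdd 3 j)) =
        ∑ i, U i j * v l (σ (Fin.castAdd 3 i)) := fun l => hU j l
      simp only [h1, Finset.mul_sum, Algebra.algebraMap_self, RingHom.id_apply]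
      rw [Finset.sum_comm]
      refine Finset.sum_congr rfl fun i _ => ?_
      change _ = U i j * ∑ l, b l * v l (σ (Fin.castAdd 3 i))
      rw [Finset.mul_sum]
      exact Finset.sum_congr rfl fun l _ => by ring
  refine ⟨σ, U, fun b => ⟨L b, key b⟩, fun u => ?_⟩
  obtain ⟨b, rfl⟩ := hLs u
  exact ⟨b, (key b).symm⟩

/-- the charts of the planes of `F = 0` -/
abbrev Pln (T : Fin 6 → Fin 6 → Fin 6 → ℂ) : Type :=
  {p : (Fin (3 + 3) ≃ Fin 6) × (Fin 3 → Fin 3 → ℂ) // ∀ u : Fin 3 → ℂ,
    Bg T (pl p.1 p.2 u) (pl p.1 p.2 u) (pl p.1 p.2 u) = 0}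

theorem countable_pln {T : Fin 6 → Fin 6 → Fin 6 → ℂ} (hT : SymG T)
    (hsm : Sm (Bg T X X X : MvPolynomial (Fin 6) ℂ)) : Countable (Pln T) := by
  have h1 : {p : (Fin (3 + 3) ≃ Fin 6) × (Fin 3 → Fin 3 → ℂ) | ∀ u : Fin 3 → ℂ,
      Bg T (pl p.1 p.2 u) (pl p.1 p.2 u) (pl p.1 p.2 u) = 0} =
      ⋃ σ : Fin (3 + 3) ≃ Fin 6, (fun U => (σ, U)) '' {U : Fin 3 → Fin 3 → ℂ |
        ∀ u : Fin 3 → ℂ, Bg T (pl σ U u) (pl σ U u) (pl σ U u) = 0} := by
    ext ⟨σ, U⟩
    simp
  have h2 : {p : (Fin (3 + 3) ≃ Fin 6) × (Fin 3 → Fin 3 → ℂ) | ∀ u : Fin 3 → ℂ,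
      Bg T (pl p.1 p.2 u) (pl p.1 p.2 u) (pl p.1 p.2 u) = 0}.Countable := by
    rw [h1]
    exact Set.countable_iUnion fun σ => (planes_countable hT hsm σ).image _
  exact h2.to_subtype

/-- a point of `F = 0` which avoids the planes and a given hypersurface -/
theorem good_point {T : Fin 6 → Fin 6 → Fin 6 → ℂ} (hT : SymG T)
    (hF : (Bg T X X X : MvPolynomial (Fin 6) ℂ).IsHomogeneous 3)
    (hsm : Sm (Bg T X X X : MvPolynomial (Fin 6) ℂ)) (G : Fin 6 → MvPolynomial (Fin 4) ℂ)
    (h1 : aeval G (Bg T X X X : MvPolynomial (Fin 6) ℂ) = 0)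
    (h2 : ∀ (e : ℕ) (P : MvPolynomial (Fin 6) ℂ), P.IsHomogeneous e → aeval G P = 0 →
      (Bg T X X X : MvPolynomial (Fin 6) ℂ) ∣ P)
    (P0 : MvPolynomial (Fin 6) ℂ) (hP0 : aeval G P0 ≠ 0) :
    ∃ x : Fin 6 → ℂ, Bg T x x x = 0 ∧ eval x P0 ≠ 0 ∧ x 0 ≠ 0 ∧
      (∀ (p : Pln T) (u : Fin 3 → ℂ), x ≠ pl p.1.1 p.1.2 u) ∧
      ∀ p : Pln T, Bg T (pl p.1.1 p.1.2 (Pi.single 0 1)) x x ≠ 0 := by
  classical
  have := countable_pln hT hsm
  set F : MvPolynomial (Fin 6) ℂ := Bg T X X X with hFd
  have hF0 : F ≠ 0 := ne_zero_of_smooth (m := 5) hsm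
  have hnd : ∀ (e : ℕ) (P : MvPolynomial (Fin 6) ℂ), P.IsHomogeneous e → e < 3 → P ≠ 0 →
      aeval G P ≠ 0 := by
    intro e P hP he hP1 h
    exact hP1 (eq_zero_of_dvd hF hF0 hP he (h2 e P hP h))
  -- the linear forms
  let Lp : Pln T → MvPolynomial (Fin 6) ℂ := fun p =>
    X (p.1.1 (Fin.natAdd 3 0)) - ∑ i, C (p.1.2 i 0) * X (p.1.1 (Fin.castAdd 3 i))
  have hLph : ∀ p, (Lp p).IsHomogeneous 1 := fun p =>
    (isHomogeneous_X _ _).sub (IsHomogeneous.sum _ _ _ fun i _ => (isHomogeneous_X ℂ _).C_mul _)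
  have hLpe : ∀ p x, eval x (Lp p) = x (p.1.1 (Fin.natAdd 3 0)) -
      ∑ i, p.1.2 i 0 * x (p.1.1 (Fin.castAdd 3 i)) := by
    intro p x
    simp only [Lp, map_sub, map_sum, map_mul, eval_X, eval_C]
  have hLp0 : ∀ p, Lp p ≠ 0 := by
    intro p h
    have h3 := hLpe p (cp p.1.1 (Pi.single 0 1))
    simp only [h, map_zero, cp_right, cp_left, mul_zero, Finset.sum_const_zero, sub_zero,
      Pi.single_eq_same] at h3
    exact one_ne_zero h3.symm
  -- the quadratic forms
  let ep : Pln T → Fin 6 → ℂ := fun p => pl p.1.1 p.1.2 (Pi.single 0 1)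
  let Qp : Pln T → MvPolynomial (Fin 6) ℂ := fun p => Bg T (fun i => C (ep p i)) X X
  have hQph : ∀ p, (Qp p).IsHomogeneous 2 := by
    intro p
    refine IsHomogeneous.sum _ _ _ fun a _ => IsHomogeneous.sum _ _ _ fun b _ =>
        IsHomogeneous.sum _ _ _ fun c _ => ?_
    have h1 := (((isHomogeneous_C (Fin 6) (T a b c)).mul (isHomogeneous_C (Fin 6) (ep p a))).mul
      (isHomogeneous_X ℂ b)).mul (isHomogeneous_X ℂ c)
    simpa using h1
  have hQpe : ∀ p x, eval x (Qp p) = Bg T (ep p) x x := by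
    intro p x
    rw [← aeval_eq_eval]
    simp only [Qp]
    rw [map_Bg]
    simp only [aeval_X, aeval_C]
    rfl
  have hQp0 : ∀ p, Qp p ≠ 0 := by
    intro p h
    have h3 : ∀ x, Bg T (ep p) x x = 0 := by
      intro x
      rw [← hQpe, h, map_zero]
    have h4 : ep p = 0 := by
      apply sm_tri hT hsm
      intro w
      have e1 := h3 (fun i => w i + ep p i)
      simp only [Bg_add2, Bg_add3] at e1
      rw [h3, h3, Bg_swap23 hT (ep p) (ep p) w] at e1
      rw [Bg_swap12 hT]
      linear_combination (1 / 2 : ℂ) * e1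
    have h5 := congrFun h4 (p.1.1 (Fin.castAdd 3 0))
    simp only [ep, pl_left, Pi.single_eq_same, Pi.zero_apply] at h5
    exact one_ne_zero h5
  obtain ⟨t, ht⟩ := exists_avoid (ι := Fin 2 ⊕ (Pln T ⊕ Pln T)) 4
    (Sum.elim ![aeval G P0, aeval G (X 0)] (Sum.elim (fun p => aeval G (Lp p))
      (fun p => aeval G (Qp p)))) (by
    rintro (i | p | p)
    · fin_cases i
      · exact hP0
      · exact hnd 1 _ (isHomogeneous_X _ _) (by norm_num) (X_ne_zero _)
    · exact hnd 1 _ (hLph p) (by norm_num) (hLp0 p)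
    · exact hnd 2 _ (hQph p) (by norm_num) (hQp0 p))
  have hev : ∀ P : MvPolynomial (Fin 6) ℂ, eval (fun i => eval t (G i)) P = eval t (aeval G P) := by
    intro P
    rw [← aeval_eq_eval, ← aeval_eq_eval]
    exact (comp_aeval_apply (f := G) (aeval t : MvPolynomial (Fin 4) ℂ →ₐ[ℂ] ℂ) P).symm
  refine ⟨fun i => eval t (G i), ?_, ?_, ?_, ?_, ?_⟩
  · rw [← aeval_frmG, aeval_eq_eval, ← hFd, hev, h1, map_zero]
  · rw [hev]
    exact ht (Sum.inl 0)
  · have h3 := ht (Sum.inl 1)
    have h4 : eval t (aeval G (X 0 : MvPolynomial (Fin 6) ℂ)) ≠ 0 := h3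
    rwa [aeval_X] at h4
  · intro p u h
    have h3 : eval t (aeval G (Lp p)) ≠ 0 := ht (Sum.inr (Sum.inl p))
    apply h3
    rw [← hev, h, hLpe, pl_right]
    simp only [pl_left, Algebra.algebraMap_self, RingHom.id_apply, sub_self]
  · intro p
    have h3 : eval t (aeval G (Qp p)) ≠ 0 := ht (Sum.inr (Sum.inr p))
    rwa [← hev, hQpe] at h3

/-- the points of a plane on lines of `F = 0` through `x`: finitely many -/
theorem bad_points {T : Fin 6 → Fin 6 → Fin 6 → ℂ} (hT : SymG T) {x : Fin 6 → ℂ}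
    (hx : Bg T x x x = 0) (hxp : ∀ (p : Pln T) (u : Fin 3 → ℂ), x ≠ pl p.1.1 p.1.2 u)
    (hxq : ∀ p : Pln T, Bg T (pl p.1.1 p.1.2 (Pi.single 0 1)) x x ≠ 0) (p : Pln T) :
    ∃ S : Set (Fin 3 → ℂ), S.Countable ∧ (0 : Fin 3 → ℂ) ∉ S ∧ ∀ u : Fin 3 → ℂ, u ≠ 0 →
      Bg T (pl p.1.1 p.1.2 u) x x = 0 →
      Bg T (pl p.1.1 p.1.2 u) (pl p.1.1 p.1.2 u) x = 0 → ∃ c : ℂ, ∃ v ∈ S, u = fun i => c * v i := by
  classical
  obtain ⟨⟨σ, U⟩, hU⟩ := p
  simp only at hU ⊢
  have hα := hxq ⟨⟨σ, U⟩, hU⟩
  simp only at hα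
  set α := Bg T (pl σ U (Pi.single 0 1)) x x with hαd
  set β := Bg T (pl σ U (Pi.single 1 1)) x x with hβd
  set γ := Bg T (pl σ U (Pi.single 2 1)) x x with hγd
  have hlin : ∀ u : Fin 3 → ℂ, Bg T (pl σ U u) x x = u 0 * α + u 1 * β + u 2 * γ := by
    intro u
    have h1 : pl σ U u = fun s => (u 0 * pl σ U (Pi.single 0 1) s +
        u 1 * pl σ U (Pi.single 1 1) s) + u 2 * pl σ U (Pi.single 2 1) s := by
      apply ext6 σ
      · intro i
        simp only [pl_left]
        fin_cases i <;> simp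
      · intro j
        simp only [pl_right, Algebra.algebraMap_self, RingHom.id_apply, Fin.sum_univ_three]
        simp
        ring
    rw [h1, Bg_add1, Bg_add1, Bg_smul1, Bg_smul1, Bg_smul1]
  -- a basis of the kernel
  let u1 : Fin 3 → ℂ := ![-β, α, 0]
  let u2 : Fin 3 → ℂ := ![-γ, 0, α]
  have hker : ∀ u : Fin 3 → ℂ, Bg T (pl σ U u) x x = 0 →
      u = fun i => (u 1 / α) * u1 i + (u 2 / α) * u2 i := by
    intro u hu
    rw [hlin] at hu
    funext i
    fin_cases i
    · change u 0 = (u 1 / α) * (-β) + (u 2 / α) * (-γ)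
      field_simp
      linear_combination hu
    · change u 1 = (u 1 / α) * α + (u 2 / α) * 0
      field_simp
      ring
    · change u 2 = (u 1 / α) * 0 + (u 2 / α) * α
      field_simp
      ring
  have hk1 : Bg T (pl σ U u1) x x = 0 := by
    rw [hlin]
    change -β * α + α * β + 0 * γ = 0
    ring
  have hk2 : Bg T (pl σ U u2) x x = 0 := by
    rw [hlin]
    change -γ * α + 0 * β + α * γ = 0
    ring
  set A := Bg T (pl σ U u1) (pl σ U u1) x with hA
  set B := Bg T (pl σ U u1) (pl σ U u2) x with hB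
  set D := Bg T (pl σ U u2) (pl σ U u2) x with hD
  have hquad : ∀ r s : ℂ, Bg T (pl σ U fun i => r * u1 i + s * u2 i)
      (pl σ U fun i => r * u1 i + s * u2 i) x = A * r ^ 2 + 2 * B * r * s + D * s ^ 2 := by
    intro r s
    have h1 : (pl σ U fun i => r * u1 i + s * u2 i) =
        fun i => r * pl σ U u1 i + s * pl σ U u2 i := by
      apply ext6 σ
      · intro i
        simp only [pl_left]
      · intro j
        simp only [pl_right, Finset.mul_sum, ← Finset.sum_add_distrib]
        exact Finset.sum_congr rfl fun i _ => by ring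
    rw [h1]
    simp only [Bg_add1, Bg_add2, Bg_smul1, Bg_smul2]
    rw [Bg_swap12 hT (pl σ U u2) (pl σ U u1) x]
    ring
  -- not identically zero
  have hne : ¬ (A = 0 ∧ B = 0 ∧ D = 0) := by
    rintro ⟨hA0, hB0, hD0⟩
    have hcomb : ∀ r s : ℂ, (pl σ U fun i => r * u1 i + s * u2 i) =
        fun i => r * pl σ U u1 i + s * pl σ U u2 i := by
      intro r s
      apply ext6 σ
      · intro i
        simp only [pl_left]
      · intro j
        simp only [pl_right, Finset.mul_sum, ← Finset.sum_add_distrib]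
        exact Finset.sum_congr rfl fun i _ => by ring
    have hli : LinearIndependent ℂ (![x, pl σ U u1, pl σ U u2] : Fin 3 → Fin 6 → ℂ) := by
      rw [Fintype.linearIndependent_iff]
      intro g hg
      have h1 : ∀ i, g 0 * x i + g 1 * pl σ U u1 i + g 2 * pl σ U u2 i = 0 := by
        intro i
        have h2 := congrFun hg i
        rw [Finset.sum_apply, Fin.sum_univ_three, Pi.zero_apply] at h2
        exact h2
      have h0 : g 0 = 0 := by
        by_contra h0
        apply hxp ⟨⟨σ, U⟩, hU⟩ (fun i => (-(g 1 / g 0)) * u1 i + (-(g 2 / g 0)) * u2 i)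
        rw [hcomb]
        funext i
        have h2 := h1 i
        field_simp
        linear_combination h2
      have h2 : (pl σ U fun i => g 1 * u1 i + g 2 * u2 i) = 0 := by
        rw [hcomb]
        funext i
        have h3 := h1 i
        rw [h0] at h3
        rw [Pi.zero_apply]
        linear_combination h3
      have h3 : ∀ i, g 1 * u1 i + g 2 * u2 i = 0 := by
        intro i
        have h4 := congrFun h2 (σ (Fin.castAdd 3 i))
        rwa [pl_left] at h4
      have h4 : g 1 * α + g 2 * 0 = 0 := h3 1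
      have h5 : g 1 * 0 + g 2 * α = 0 := h3 2
      have h6 : g 1 = 0 := by
        rw [mul_zero, add_zero] at h4
        exact (mul_eq_zero.1 h4).resolve_right hα
      have h7 : g 2 = 0 := by
        rw [mul_zero, zero_add] at h5
        exact (mul_eq_zero.1 h5).resolve_right hα
      intro i
      fin_cases i
      · exact h0
      · exact h6
      · exact h7
    obtain ⟨σ', U', hc1, hc2⟩ := chart _ hli
    have hin : ∀ b : Fin 3 → ℂ, Bg T (fun i => ∑ l, b l * (![x, pl σ U u1, pl σ U u2] :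
        Fin 3 → Fin 6 → ℂ) l i) (fun i => ∑ l, b l * (![x, pl σ U u1, pl σ U u2] :
        Fin 3 → Fin 6 → ℂ) l i) (fun i => ∑ l, b l * (![x, pl σ U u1, pl σ U u2] :
        Fin 3 → Fin 6 → ℂ) l i) = 0 := by
      intro b
      have h1 : (fun i => ∑ l, b l * (![x, pl σ U u1, pl σ U u2] :
          Fin 3 → Fin 6 → ℂ) l i) =
          fun i => b 0 * x i + (pl σ U fun i => b 1 * u1 i + b 2 * u2 i) i := by
        rw [hcomb]
        funext i
        rw [Fin.sum_univ_three, add_assoc]
        rfl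
      have s1 : ∀ w : Fin 6 → ℂ, Bg T x x w = Bg T w x x := fun w => by
        rw [Bg_swap23 hT, Bg_swap12 hT]
      have s2 : ∀ w : Fin 6 → ℂ, Bg T x w w = Bg T w w x := fun w => by
        rw [Bg_swap12 hT, Bg_swap23 hT]
      rw [h1, ← aeval_frmG, con_taylor hT, hx, hU, s1, s2, hquad, hA0, hB0, hD0, hcomb, Bg_add1,
        Bg_smul1, Bg_smul1, hk1, hk2]
      ring
    have hU' : ∀ u : Fin 3 → ℂ, Bg T (pl σ' U' u) (pl σ' U' u) (pl σ' U' u) = 0 := by
      intro u
      obtain ⟨b, hb⟩ := hc2 u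
      rw [hb]
      exact hin b
    obtain ⟨u, hu⟩ := hc1 (Pi.single 0 1)
    apply hxp ⟨⟨σ', U'⟩, hU'⟩ u
    rw [← hu]
    funext i
    rw [Fin.sum_univ_three]
    simp
  let q : Polynomial ℂ := Polynomial.C A * Polynomial.X ^ 2 + Polynomial.C (2 * B) * Polynomial.X +
    Polynomial.C D
  have hq : q ≠ 0 := by
    intro h
    apply hne
    refine ⟨?_, ?_, ?_⟩
    · have := congrArg (fun f : Polynomial ℂ => f.coeff 2) h
      simpa [q, Polynomial.coeff_X, Polynomial.coeff_C] using this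
    · have := congrArg (fun f : Polynomial ℂ => f.coeff 1) h
      simpa [q, Polynomial.coeff_X, Polynomial.coeff_C] using this
    · have := congrArg (fun f : Polynomial ℂ => f.coeff 0) h
      simpa [q, Polynomial.coeff_X, Polynomial.coeff_C] using this
  refine ⟨insert u1 ((fun ρ : ℂ => (fun i => ρ * u1 i + u2 i : Fin 3 → ℂ)) '' {ρ | q.IsRoot ρ}),
    ((Polynomial.finite_setOfPred_isRoot hq).countable.image _).insert _, ?_, ?_⟩
  · rw [Set.mem_insert_iff, Set.mem_image]
    rintro (h | ⟨ρ, -, h⟩)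
    · exact hα (congrFun h 1).symm
    · have h1 : ρ * 0 + α = 0 := congrFun h 2
      apply hα
      linear_combination h1
  · intro u hu0 hu1 hu2
    have h1 := hker u hu1
    set r := u 1 / α with hr
    set s := u 2 / α with hs
    by_cases hs0 : s = 0
    · refine ⟨r, u1, Set.mem_insert _ _, ?_⟩
      rw [h1, hs0]
      funext i
      ring
    · refine ⟨s, fun i => (r / s) * u1 i + u2 i, Set.mem_insert_of_mem _ ⟨r / s, ?_, rfl⟩, ?_⟩
      · change Polynomial.eval (r / s) q = 0
        rw [h1, hquad] at hu2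
        simp only [q, Polynomial.eval_add, Polynomial.eval_mul, Polynomial.eval_C,
          Polynomial.eval_pow, Polynomial.eval_X]
        field_simp
        linear_combination hu2
      · rw [h1]
        funext i
        field_simp

/-- a line of `F = 0` which meets no plane of `F = 0` and contains a general point -/
theorem good_line {T : Fin 6 → Fin 6 → Fin 6 → ℂ} (hT : SymG T)
    (hF : (Bg T X X X : MvPolynomial (Fin 6) ℂ).IsHomogeneous 3)
    (hsm : Sm (Bg T X X X : MvPolynomial (Fin 6) ℂ)) (G : Fin 6 → MvPolynomial (Fin 4) ℂ)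
    (h1 : aeval G (Bg T X X X : MvPolynomial (Fin 6) ℂ) = 0)
    (h2 : ∀ (e : ℕ) (P : MvPolynomial (Fin 6) ℂ), P.IsHomogeneous e → aeval G P = 0 →
      (Bg T X X X : MvPolynomial (Fin 6) ℂ) ∣ P)
    (P0 : MvPolynomial (Fin 6) ℂ) (hP0 : aeval G P0 ≠ 0) :
    ∃ x y : Fin 6 → ℂ, eval x P0 ≠ 0 ∧ x 0 ≠ 0 ∧ (∃ k, x 0 * y k - x k * y 0 ≠ 0) ∧
      (∀ a b : ℂ, Bg T (fun i => a * x i + b * y i) (fun i => a * x i + b * y i)
        (fun i => a * x i + b * y i) = 0) ∧
      ∀ (p : Pln T) (u : Fin 3 → ℂ) (a b : ℂ), (fun i => a * x i + b * y i) = pl p.1.1 p.1.2 u →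
        a = 0 ∧ b = 0 := by
  classical
  obtain ⟨x, hx, hx0, hx1, hxp, hxq⟩ := good_point hT hF hsm G h1 h2 P0 hP0
  have := countable_pln hT hsm
  choose S hSc hS0 hS using bad_points hT hx hxp hxq
  have hSc' : ∀ p, Countable (S p) := fun p => (hSc p).to_subtype
  -- a general linear form which vanishes at `x`
  let R : (Σ p : Pln T, S p) → MvPolynomial (Fin 6) ℂ := fun s =>
    ∑ k, C (pl s.1.1.1 s.1.1.2 s.2.1 k - pl s.1.1.1 s.1.1.2 s.2.1 0 / x 0 * x k) * X k
  have hRe : ∀ s a, eval a (R s) = ∑ k, (pl s.1.1.1 s.1.1.2 s.2.1 k -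
      pl s.1.1.1 s.1.1.2 s.2.1 0 / x 0 * x k) * a k := by
    intro s a
    simp only [R, map_sum, map_mul, eval_X, eval_C]
  have hR0 : ∀ s, R s ≠ 0 := by
    rintro ⟨p, v, hv⟩ h
    have h3 : ∀ k, pl p.1.1 p.1.2 v k = pl p.1.1 p.1.2 v 0 / x 0 * x k := by
      intro k
      have h4 := hRe ⟨p, v, hv⟩ (Pi.single k 1)
      rw [h, map_zero] at h4
      simp only [Pi.single_apply, mul_ite, mul_one, mul_zero, Finset.sum_ite_eq',
        Finset.mem_univ, if_true] at h4
      exact (sub_eq_zero.1 h4.symm)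
    set c := pl p.1.1 p.1.2 v 0 / x 0 with hc
    by_cases hc0 : c = 0
    · apply hS0 p
      have h4 : v = 0 := by
        funext i
        have h5 := h3 (p.1.1 (Fin.castAdd 3 i))
        rw [pl_left, hc0, zero_mul] at h5
        exact h5
      rw [← h4]
      exact hv
    · apply hxp p (fun i => c⁻¹ * v i)
      funext k
      have h4 : pl p.1.1 p.1.2 (fun i => c⁻¹ * v i) = fun k => c⁻¹ * pl p.1.1 p.1.2 v k := by
        apply ext6 p.1.1
        · intro i
          simp only [pl_left]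
        · intro j
          simp only [pl_right, Finset.mul_sum]
          exact Finset.sum_congr rfl fun i _ => by ring
      rw [h4]
      simp only
      rw [h3 k, ← mul_assoc, inv_mul_cancel₀ hc0, one_mul]
  obtain ⟨a, ha⟩ := exists_avoid 6 R hR0
  -- the direction of the line
  have hs12 : ∀ (X1 Y1 : Fin 6 → ℂ), Bg T X1 X1 Y1 = Bg T Y1 X1 X1 := fun X1 Y1 => by
    rw [Bg_swap23 hT, Bg_swap12 hT]
  obtain ⟨y, hy, hyf⟩ := Pool.Agent.R845.exists_other_zero' (n := 6) (ι := Fin 5)
    (by rw [Fintype.card_fin]; omega)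
    (![X 0, ∑ k, C (a k) * X k, Bg T X (fun i => C (x i)) (fun i => C (x i)),
      Bg T X X (fun i => C (x i)), Bg T X X X] : Fin 5 → MvPolynomial (Fin 6) ℂ)
    (0 : Fin 6 → ℂ) (by
      intro i
      fin_cases i
      · simp
      · simp
      · rw [← aeval_eq_eval]
        change aeval 0 (Bg T X (fun i => C (x i)) (fun i => C (x i))) = 0
        rw [map_Bg]
        simp only [aeval_X, aeval_C]
        exact Bg_zero1 T _ _
      · rw [← aeval_eq_eval]
        change aeval 0 (Bg T X X (fun i => C (x i))) = 0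
        rw [map_Bg]
        simp only [aeval_X, aeval_C]
        exact Bg_zero1 T _ _
      · rw [← aeval_eq_eval]
        change aeval 0 (Bg T X X X) = 0
        rw [map_Bg]
        simp only [aeval_X]
        exact Bg_zero1 T _ _)
  have y0 : y 0 = 0 := by
    have h3 := hyf 0
    rwa [Matrix.cons_val_zero, eval_X] at h3
  have y1 : ∑ k, a k * y k = 0 := by
    have h3 := hyf 1
    simpa using h3
  have y2 : Bg T y x x = 0 := by
    have h3 := hyf 2
    rw [← aeval_eq_eval] at h3
    change aeval y (Bg T X (fun i => C (x i)) (fun i => C (x i))) = 0 at h3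
    rw [map_Bg] at h3
    simp only [aeval_X, aeval_C] at h3
    exact h3
  have y3 : Bg T y y x = 0 := by
    have h3 := hyf 3
    rw [← aeval_eq_eval] at h3
    change aeval y (Bg T X X (fun i => C (x i))) = 0 at h3
    rw [map_Bg] at h3
    simp only [aeval_X, aeval_C] at h3
    exact h3
  have y4 : Bg T y y y = 0 := by
    have h3 := hyf 4
    rw [← aeval_eq_eval] at h3
    change aeval y (Bg T X X X) = 0 at h3
    rw [map_Bg] at h3
    simpa only [aeval_X] using h3
  obtain ⟨k0, hk0⟩ := Function.ne_iff.1 hy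
  rw [Pi.zero_apply] at hk0
  have e1 : ∀ a b : ℂ, Bg T (fun i => a * x i + b * y i) x x = 0 := by
    intro a b
    rw [Bg_add1, Bg_smul1, Bg_smul1, hx, y2]
    ring
  have e2 : ∀ a b : ℂ, Bg T (fun i => a * x i + b * y i) (fun i => a * x i + b * y i) x = 0 := by
    intro a b
    simp only [Bg_add1, Bg_add2, Bg_smul1, Bg_smul2]
    rw [hx, y3, Bg_swap12 hT x y x, y2]
    ring
  refine ⟨x, y, hx0, hx1, ⟨k0, ?_⟩, ?_, ?_⟩
  · rw [y0, mul_zero, sub_zero]
    exact mul_ne_zero hx1 hk0
  · intro a b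
    simp only [Bg_add1, Bg_add2, Bg_add3, Bg_smul1, Bg_smul2, Bg_smul3]
    rw [hx, hs12 x y, Bg_swap12 hT x y x, y2, y3, y4, Bg_swap12 hT x y y, Bg_swap23 hT y x y, y3]
    ring
  · intro p u b c h
    have hτ : ∑ k, a k * (b * x k + c * y k - (b * x 0 + c * y 0) / x 0 * x k) = 0 := by
      have h3 : ∀ k, a k * (b * x k + c * y k - (b * x 0 + c * y 0) / x 0 * x k) =
          c * (a k * y k) := by
        intro k
        rw [y0]
        field_simp
        ring
      simp only [h3]
      rw [← Finset.mul_sum, y1, mul_zero]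
    by_cases hu : u = 0
    · have h3 : ∀ k, b * x k + c * y k = 0 := by
        intro k
        have h4 := congrFun h k
        rw [hu] at h4
        rw [h4]
        have h5 : (pl p.1.1 p.1.2 (0 : Fin 3 → ℂ)) = 0 := by
          apply ext6 p.1.1
          · intro i
            rw [pl_left]
            rfl
          · intro j
            rw [pl_right]
            simp
        rw [h5, Pi.zero_apply]
      have h4 := h3 0
      rw [y0, mul_zero, add_zero] at h4
      have hb := (mul_eq_zero.1 h4).resolve_right hx1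
      refine ⟨hb, ?_⟩
      have h5 := h3 k0
      rw [hb, zero_mul, zero_add] at h5
      exact (mul_eq_zero.1 h5).resolve_right hk0
    · exfalso
      obtain ⟨d, v, hv, huv⟩ := hS p u hu (by rw [← h]; exact e1 b c) (by rw [← h]; exact e2 b c)
      have hd : d ≠ 0 := by
        rintro rfl
        apply hu
        rw [huv]
        funext i
        simp
      apply ha ⟨p, v, hv⟩
      rw [hRe]
      have h4 : pl p.1.1 p.1.2 u = fun k => d * pl p.1.1 p.1.2 v k := by
        rw [huv]
        apply ext6 p.1.1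
        · intro i
          simp only [pl_left]
        · intro j
          simp only [pl_right, Finset.mul_sum]
          exact Finset.sum_congr rfl fun i _ => by ring
      have h5 : ∀ k, b * x k + c * y k = d * pl p.1.1 p.1.2 v k := by
        intro k
        have h6 := congrFun h k
        rw [h4] at h6
        exact h6
      simp only [h5] at hτ
      have h6 : ∑ k, a k * (d * pl p.1.1 p.1.2 v k - d * pl p.1.1 p.1.2 v 0 / x 0 * x k) =
          d * ∑ k, (pl p.1.1 p.1.2 v k - pl p.1.1 p.1.2 v 0 / x 0 * x k) * a k := by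
        rw [Finset.mul_sum]
        exact Finset.sum_congr rfl fun k _ => by ring
      rw [h6] at hτ
      exact (mul_eq_zero.1 hτ).resolve_left hd

end

end Pool.Agent.Helper2K9.Cub
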