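import Mathlib
import Pool.Agent.Helper2K9.Cub.Line
import Pool.Agent.Helper2K9.Cub.Lim
import Pool.Agent.R845.E3.Bas

/-! # No smooth cubic fourfold has a birational parametrization of degree at most three -/

set_option autoImplicit false

namespace Pool.Agent.Helper2K9.Cub

open MvPolynomial Pool.Agent.TH314.PD IntermediateField Module Pool.Agent.Y201.C3
open Pool.Agent.R845.E3 Pool.Agent.R845.T2

noncomputable section

theorem no_birational {F : MvPolynomial (Fin (4 + 2)) ℂ} (hF : F.IsHomogeneous 3) (hsm : Sm F)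
    (G : Fin (4 + 2) → MvPolynomial (Fin 4) ℂ) (hG : ∀ i, (G i).totalDegree ≤ 3)
    (hFG : aeval G F = 0)
    (hdom : ∀ e (P : MvPolynomial (Fin (4 + 2)) ℂ), P.IsHomogeneous e → aeval G P = 0 → F ∣ P)
    (hfin : finrank (ratioField fun i => algebraMap (MvPolynomial (Fin 4) ℂ) (Rn 4) (G i))
      (Rn 4) = 1) : False := by
  classical
  obtain ⟨H, hH, -, hdh, hHF⟩ := homog hF G hG hFG
  have h3 : ∀ P : MvPolynomial (Fin (4 + 2)) ℂ,
      aeval (dh H) P = algebraMap (MvPolynomial (Fin 4) ℂ) (Rn 4) (aeval G P) := fun P => by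
    rw [hdh]
    exact (comp_aeval_apply (φ := IsScalarTower.toAlgHom ℂ (MvPolynomial (Fin 4) ℂ) (Rn 4))
      G P).symm
  have hgp : Gp F (dh H) := by
    refine ⟨by rw [h3, hFG, map_zero], fun e P hP h0 => hdom e P hP ?_⟩
    rw [h3] at h0
    exact (IsFractionRing.injective (MvPolynomial (Fin 4) ℂ) (Rn 4)) (h0.trans (map_zero _).symm)
  rw [← hdh] at hfin
  have htop : ratioField (dh H) = ⊤ := IntermediateField.finrank_eq_one_iff_eq_top.1 hfin
  obtain ⟨e, K, hK, hKF, hKne⟩ := inverse hF H hH hgp htop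
  obtain ⟨T, hT, hFT⟩ := exists_tri F hF
  have hP0 : aeval G (aeval K (H 0)) ≠ 0 := by
    intro h
    apply hKne 0
    rw [h3, h, map_zero]
  obtain ⟨x, y, hx0, hx1, ⟨k0, hk0⟩, hline, hplane⟩ := good_line hT (hFT ▸ hF) (hFT ▸ hsm) G
    (hFT ▸ hFG) (hFT ▸ hdom) (aeval K (H 0)) hP0
  set δ := x 0 * y k0 - x k0 * y 0 with hδ
  -- the line
  let l : Fin (4 + 2) → Polynomial ℂ := fun i =>
    Polynomial.C (y i) + Polynomial.C (x i) * Polynomial.X
  have hl1 : ∀ i, (l i).natDegree ≤ 1 := by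
    intro i
    simp only [l]
    compute_degree
  have hlc : (fun i => (l i).coeff 1) = x := by
    funext i
    simp [l, Polynomial.coeff_C]
  have hle : ∀ i s, (l i).eval s = s * x i + 1 * y i := by
    intro i s
    simp only [l, Polynomial.eval_add, Polynomial.eval_C, Polynomial.eval_mul, Polynomial.eval_X]
    ring
  have hlF : aeval l F = 0 := by
    apply Polynomial.funext
    intro s
    rw [Polynomial.eval_zero, ← Polynomial.coe_aeval_eq_eval, comp_aeval_apply, hFT, aeval_frmG]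
    simp only [Polynomial.coe_aeval_eq_eval, hle]
    exact hline s 1
  have hrel : ∀ i k, l i * aeval l (aeval K (H k)) = l k * aeval l (aeval K (H i)) := by
    intro i k
    obtain ⟨Q, hQ⟩ := hKF i k
    have h4 := congrArg (aeval l) hQ
    rw [map_mul, hlF, zero_mul, map_sub, map_mul, map_mul, aeval_X, aeval_X] at h4
    exact sub_eq_zero.1 h4
  let h : Fin (4 + 1) → Polynomial ℂ := fun j => aeval l (K j)
  have hh : ∀ k, aeval l (aeval K (H k)) = aeval h (H k) := fun k => comp_aeval_apply K _ (H k)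
  simp only [hh] at hrel
  have hP0h : (aeval K (H 0)).IsHomogeneous (e * 3) := (hH 0).aeval K hK
  obtain ⟨hd1, hd2⟩ := form_top hP0h l hl1
  rw [hh, hlc] at hd2
  rw [hh] at hd1
  have hne0 : aeval h (H 0) ≠ 0 := by
    intro h4
    apply hx0
    rw [← aeval_eq_eval, ← hd2, h4, Polynomial.coeff_zero]
  have hdeg : (aeval h (H 0)).natDegree = e * 3 := by
    apply le_antisymm hd1
    apply Polynomial.le_natDegree_of_ne_zero
    rw [hd2, aeval_eq_eval]
    exact hx0
  obtain ⟨j0, hj0⟩ : ∃ j, h j ≠ 0 := by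
    by_contra hcon
    push Not at hcon
    apply hne0
    have h4 : h = fun j => (0 : Polynomial ℂ) * h j := by
      funext j
      rw [hcon j, mul_zero]
    rw [h4, aeval_smul_form (hH 0)]
    ring
  obtain ⟨g, h', hg, hgh, hprim⟩ := primitive j0 _ h hj0 le_rfl
  have hHg : ∀ k, aeval h (H k) = g ^ 3 * aeval h' (H k) := by
    intro k
    rw [← aeval_smul_form (hH k)]
    congr 2
    funext j
    exact hgh j
  have hg3 : g ^ 3 ≠ 0 := pow_ne_zero _ hg
  have hrel' : ∀ i k, l i * aeval h' (H k) = l k * aeval h' (H i) := by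
    intro i k
    have h4 := hrel i k
    rw [hHg, hHg] at h4
    apply mul_left_cancel₀ hg3
    linear_combination h4
  -- the common factor
  let c : Polynomial ℂ := Polynomial.C (-δ⁻¹) *
    (Polynomial.C (x k0) * aeval h' (H 0) - Polynomial.C (x 0) * aeval h' (H k0))
  have hc : ∀ i, aeval h' (H i) = c * l i := by
    intro i
    have e1 := hrel' i 0
    have e2 := hrel' i k0
    have e3 : Polynomial.C (x k0) * l 0 - Polynomial.C (x 0) * l k0 = Polynomial.C (-δ) := by
      simp only [l, hδ, map_neg, map_sub, map_mul]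
      ring
    have e4 : (Polynomial.C (-δ⁻¹) * Polynomial.C (-δ) : Polynomial ℂ) = 1 := by
      rw [← map_mul, neg_mul_neg, inv_mul_cancel₀ hk0, map_one]
    have e5 : c * l i = Polynomial.C (-δ⁻¹) * ((Polynomial.C (x k0) * l 0 -
        Polynomial.C (x 0) * l k0) * aeval h' (H i)) := by
      simp only [c]
      linear_combination (Polynomial.C (-δ⁻¹) * Polynomial.C (x k0)) * e1 -
        (Polynomial.C (-δ⁻¹) * Polynomial.C (x 0)) * e2
    rw [e5, e3, ← mul_assoc, e4, one_mul]
  have hne0' : aeval h' (H 0) ≠ 0 := by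
    intro h4
    apply hne0
    rw [hHg, h4, mul_zero]
  have hc0 : c ≠ 0 := by
    intro h4
    apply hne0'
    rw [hc, h4, zero_mul]
  have hl0 : l 0 ≠ 0 := by
    intro h4
    apply hne0'
    rw [hc, h4, mul_zero]
  have hl0d : (l 0).natDegree = 1 := by
    apply le_antisymm (hl1 0)
    apply Polynomial.le_natDegree_of_ne_zero
    rw [show (l 0).coeff 1 = x 0 from congrFun hlc 0]
    exact hx1
  have hcd : c.natDegree ≠ 0 := by
    intro h4
    have h5 : aeval h (H 0) = g ^ 3 * (c * l 0) := by rw [hHg, hc]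
    have h6 := hdeg
    rw [h5, Polynomial.natDegree_mul hg3 (mul_ne_zero hc0 hl0), Polynomial.natDegree_mul hc0 hl0,
      Polynomial.natDegree_pow, hl0d, h4] at h6
    omega
  obtain ⟨s0, hs0⟩ := IsAlgClosed.exists_root c (by
    intro h4
    exact hcd (Polynomial.natDegree_eq_of_degree_eq_some h4))
  -- the base point
  set b : Fin (4 + 1) → ℂ := fun j => (h' j).eval s0 with hb
  have hb0 : b ≠ 0 := by
    intro h4
    obtain ⟨j, hj⟩ := hprim s0
    exact hj (congrFun h4 j)
  have hHb : ∀ i, eval b (H i) = 0 := by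
    intro i
    have h4 := congrArg (Polynomial.eval s0) (hc i)
    rw [Polynomial.eval_mul, hs0.eq_zero, zero_mul, ← Polynomial.coe_aeval_eq_eval,
      comp_aeval_apply] at h4
    simp only [Polynomial.coe_aeval_eq_eval] at h4
    rw [← aeval_eq_eval]
    exact h4
  obtain ⟨v, hv, ⟨d, hd⟩, hvF⟩ := base_plane hF hsm H hH hHF hgp (by rw [hfin]; exact odd_one) b hb0
    hHb (fun i => (l i).eval s0) (fun w => limit hF H hH hHF h' c hc0 l hc s0 hs0.eq_zero w)
  obtain ⟨σ, U, hc1, hc2⟩ := chart v hv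
  have hU : ∀ u : Fin 3 → ℂ, Bg T (pl σ U u) (pl σ U u) (pl σ U u) = 0 := by
    intro u
    obtain ⟨a, ha⟩ := hc2 u
    rw [ha]
    have h4 := hvF a
    rwa [hFT, ← aeval_eq_eval, aeval_frmG] at h4
  obtain ⟨u, hu⟩ := hc1 d
  have h4 := (hplane ⟨⟨σ, U⟩, hU⟩ u s0 1 (by
    rw [← hu, ← hd]
    funext i
    exact (hle i s0).symm)).2
  exact one_ne_zero h4

end

end Pool.Agent.Helper2K9.Cub
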