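import Mathlib
import Pool.Agent.Helper2K9.Cub.Iso

/-! # Smooth cubics: the rational section in the original coordinates -/

set_option autoImplicit false

namespace Pool.Agent.Helper2K9.Cub

open MvPolynomial Pool.Agent.TH314.PD IntermediateField Module Pool.Agent.Y201.C3
open Pool.Agent.R845.E3 Pool.Agent.R845.T2

noncomputable section

/-- the basis adapted to `W` -/
def bs {N k m : ℕ} (σ : Fin (k + 1 + (m + 1)) ≃ Fin N) (U : Fin (k + 1) → Fin (m + 1) → ℂ)
    (s : Fin (k + 1 + (m + 1))) : Fin N → ℂ := orig σ U (Pi.single s 1)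

theorem bs_left {N k m : ℕ} (σ : Fin (k + 1 + (m + 1)) ≃ Fin N)
    (U : Fin (k + 1) → Fin (m + 1) → ℂ) (s : Fin (k + 1 + (m + 1))) (i : Fin (k + 1)) :
    bs σ U s (σ (Fin.castAdd (m + 1) i)) = if s = Fin.castAdd (m + 1) i then 1 else 0 := by
  unfold bs
  rw [orig_left, Pi.single_apply]
  simp only [eq_comm]

theorem bs_right {N k m : ℕ} (σ : Fin (k + 1 + (m + 1)) ≃ Fin N)
    (U : Fin (k + 1) → Fin (m + 1) → ℂ) (s : Fin (k + 1 + (m + 1))) (j : Fin (m + 1)) :
    bs σ U s (σ (Fin.natAdd (k + 1) j)) = (if s = Fin.natAdd (k + 1) j then 1 else 0) +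
      ∑ i, U i j * (if s = Fin.castAdd (m + 1) i then 1 else 0) := by
  unfold bs
  rw [orig_right, Pi.single_apply]
  simp only [Pi.single_apply, eq_comm]

theorem sum_bs {N k m : ℕ} (σ : Fin (k + 1 + (m + 1)) ≃ Fin N)
    (U : Fin (k + 1) → Fin (m + 1) → ℂ) {R : Type} [CommRing R] [Algebra ℂ R]
    (z : Fin (k + 1 + (m + 1)) → R) (i : Fin N) :
    ∑ s, z s * algebraMap ℂ R (bs σ U s i) =
      (Fin.append (fun i => z (Fin.castAdd (m + 1) i))
        (fun j => z (Fin.natAdd (k + 1) j) +
          ∑ i, algebraMap ℂ R (U i j) * z (Fin.castAdd (m + 1) i)) :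
            Fin (k + 1 + (m + 1)) → R) (σ.symm i) := by
  classical
  obtain ⟨i', rfl⟩ := σ.surjective i
  rw [Equiv.symm_apply_apply]
  refine Fin.addCases (fun i => ?_) (fun j => ?_) i'
  · rw [Fin.append_left]
    rw [Finset.sum_eq_single (Fin.castAdd (m + 1) i)]
    · rw [bs_left, if_pos rfl, map_one, mul_one]
    · intro s _ hs
      rw [bs_left, if_neg hs, map_zero, mul_zero]
    · intro h
      exact absurd (Finset.mem_univ _) h
  · rw [Fin.append_right]
    simp only [bs_right, map_add, mul_add, Finset.sum_add_distrib]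
    congr 1
    · rw [Finset.sum_eq_single (Fin.natAdd (k + 1) j)]
      · rw [if_pos rfl, map_one, mul_one]
      · intro s _ hs
        rw [if_neg hs, map_zero, mul_zero]
      · intro h
        exact absurd (Finset.mem_univ _) h
    · simp only [map_sum, map_mul, Finset.mul_sum]
      rw [Finset.sum_comm]
      refine Finset.sum_congr rfl fun i _ => ?_
      rw [Finset.sum_eq_single (Fin.castAdd (m + 1) i)]
      · rw [if_pos rfl, map_one]
        ring
      · intro s _ hs
        rw [if_neg hs, map_zero, mul_zero, mul_zero]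
      · intro h
        exact absurd (Finset.mem_univ _) h

theorem aeval_bs {N k m : ℕ} (σ : Fin (k + 1 + (m + 1)) ≃ Fin N)
    (U : Fin (k + 1) → Fin (m + 1) → ℂ) {R : Type} [CommRing R] [Algebra ℂ R]
    (F : MvPolynomial (Fin N) ℂ) (z : Fin (k + 1 + (m + 1)) → R) :
    aeval (fun i => ∑ s, z s * algebraMap ℂ R (bs σ U s i)) F =
      aeval z (shear U (rename σ.symm F)) := by
  rw [aeval_shear, aeval_rename]
  congr 2
  funext i
  rw [sum_bs]
  rfl

theorem section_of {N n k m : ℕ} (hN : N = n + 2) (hn : 3 ≤ n) {F : MvPolynomial (Fin N) ℂ}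
    (hF : F.IsHomogeneous 3) (hsm : Sm F) {r : ℕ} (A : Fin r → Fin N → ℂ)
    (σ : Fin (k + 1 + (m + 1)) ≃ Fin N) (U : Fin (k + 1) → Fin (m + 1) → ℂ)
    (hU : ∀ j l, A l (σ (Fin.natAdd (k + 1) j)) =
        ∑ i, U i j * A l (σ (Fin.castAdd (m + 1) i)))
    (hW : VanW (shear U (rename σ.symm F))) (hiso : Iso (shear U (rename σ.symm F))) :
    k + m = n ∧ 1 ≤ k ∧ k ≤ m ∧ ∃ (v : Fin (k + 1) → Fin N → ℂ) (e : Fin (m + 1) → Fin N → ℂ)
      (c : Fin (k + 1) → MvPolynomial (Fin m) ℂ) (l : MvPolynomial (Fin m) ℂ),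
      LinearIndependent ℂ (Sum.elim v e) ∧
      (∀ a : Fin (k + 1) → ℂ, eval (fun i => ∑ j, a j * v j i) F = 0) ∧
      (∀ s, A s ∈ Submodule.span ℂ (Set.range v)) ∧ l ≠ 0 ∧
      aeval (fun i => ∑ j, c j * C (v j i) +
        l * ∑ j, (Fin.cons 1 X : Fin (m + 1) → MvPolynomial (Fin m) ℂ) j * C (e j i)) F = 0 := by
  classical
  have hkm : k + m = n := by
    have h1 := Fintype.card_congr σ
    rw [Fintype.card_fin, Fintype.card_fin] at h1
    omega
  have hF1h : (rename σ.symm F).IsHomogeneous 3 := hF.rename_isHomogeneous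
  have hF2h := shear_hom hF1h U
  have hF2s := sm_shear (sm_rename σ.symm hsm) U
  have hle := le_of_smooth hF2h hF2s hW
  have hk : 1 ≤ k := by
    by_contra hk
    obtain rfl : k = 0 := by omega
    exact no_iso0 (by omega) hF2h hF2s hW hiso
  refine ⟨hkm, hk, hle, ?_⟩
  obtain ⟨c, l, h | h⟩ := hiso
  swap
  · exact (Trans.alt2 evn k m _ hF2h hF2s hW c h.1 h.2).elim
  obtain ⟨hl, hx⟩ := h
  refine ⟨fun j => bs σ U (Fin.castAdd (m + 1) j), fun j => bs σ U (Fin.natAdd (k + 1) j), c, l,
    ?_, ?_, ?_, hl, ?_⟩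
  · have h1 := (Pi.basisFun ℂ (Fin (k + 1 + (m + 1)))).linearIndependent
    have h2 := h1.comp (finSumFinEquiv : Fin (k + 1) ⊕ Fin (m + 1) ≃ Fin (k + 1 + (m + 1)))
      (Equiv.injective _)
    have h3 := h2.map' (orig σ U) (LinearMap.ker_eq_bot.2 (orig_inj σ U))
    have h4 : (⇑(orig σ U) ∘ (⇑(Pi.basisFun ℂ (Fin (k + 1 + (m + 1)))) ∘
        ⇑(finSumFinEquiv : Fin (k + 1) ⊕ Fin (m + 1) ≃ Fin (k + 1 + (m + 1))))) =
        Sum.elim (fun j => bs σ U (Fin.castAdd (m + 1) j))
          (fun j => bs σ U (Fin.natAdd (k + 1) j)) := by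
      funext s
      rcases s with s | s
      · simp only [Function.comp_apply, Pi.basisFun_apply, finSumFinEquiv_apply_left, Sum.elim_inl]
        rfl
      · simp only [Function.comp_apply, Pi.basisFun_apply, finSumFinEquiv_apply_right, Sum.elim_inr]
        rfl
    rw [h4] at h3
    exact h3
  · intro a
    have h1 := aeval_bs σ U F (Fin.append a (0 : Fin (m + 1) → ℂ))
    have h2 : (fun i => ∑ s, (Fin.append a (0 : Fin (m + 1) → ℂ)) s *
        algebraMap ℂ ℂ (bs σ U s i)) =
        fun i => ∑ j, a j * bs σ U (Fin.castAdd (m + 1) j) i := by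
      funext i
      rw [Fin.sum_univ_add]
      simp only [Fin.append_left, Fin.append_right, Pi.zero_apply, zero_mul,
        Finset.sum_const_zero, add_zero, Algebra.algebraMap_self, RingHom.id_apply]
    rw [h2, aeval_eq_eval, aeval_eq_eval] at h1
    rw [h1]
    exact eval_van hW a
  · intro s
    have h1 : A s = ∑ i, A s (σ (Fin.castAdd (m + 1) i)) • bs σ U (Fin.castAdd (m + 1) i) := by
      funext x
      obtain ⟨x', rfl⟩ := σ.surjective x
      rw [Finset.sum_apply]
      simp only [Pi.smul_apply, smul_eq_mul]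
      refine Fin.addCases (fun i0 => ?_) (fun j => ?_) x'
      · simp only [bs_left, Fin.castAdd_inj]
        rw [Finset.sum_eq_single i0]
        · rw [if_pos rfl, mul_one]
        · intro b _ hb
          rw [if_neg hb, mul_zero]
        · intro h
          exact absurd (Finset.mem_univ _) h
      · rw [hU]
        refine Finset.sum_congr rfl fun i _ => ?_
        rw [bs_right, if_neg, zero_add, mul_comm]
        · congr 1
          rw [Finset.sum_eq_single i]
          · rw [if_pos rfl, mul_one]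
          · intro b _ hb
            rw [if_neg, mul_zero]
            intro h
            exact hb (Fin.castAdd_injective _ _ h).symm
          · intro h
            exact absurd (Finset.mem_univ _) h
        · intro h
          have h6 := congrArg Fin.val h
          simp only [Fin.val_natAdd, Fin.val_castAdd] at h6
          omega
    rw [h1]
    exact Submodule.sum_mem _ fun a _ =>
          Submodule.smul_mem _ _ (Submodule.subset_span ⟨a, rfl⟩)
  · have h1 := aeval_bs σ U F (Fin.append c (fun j => l * yv ℂ m j))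
    rw [hx] at h1
    rw [← h1]
    congr 2
    funext i
    have h2 := Fin.sum_univ_add (fun s : Fin (k + 1 + (m + 1)) =>
      Fin.append c (fun j => l * yv ℂ m j) s *
        (algebraMap ℂ (MvPolynomial (Fin m) ℂ)) (bs σ U s i))
    rw [h2, Finset.mul_sum]
    refine congrArg₂ (· + ·) (Finset.sum_congr rfl fun j _ => ?_)
      (Finset.sum_congr rfl fun j _ => ?_)
    · rw [Fin.append_left, algebraMap_eq]
    · rw [Fin.append_right, algebraMap_eq]
      unfold yv
      ring

end

end Pool.Agent.Helper2K9.Cub
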